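import Pool.Agent.MP_8ec908_lc.H78.Cube

namespace Pool.Agent.MP_8ec908_lc.H78

open Pool.Agent.MP_8ec908_lc.Defs

namespace Ctx

/-- change the hypothesis -/
def withH (C : Ctx) (H : Fm) (h1 : sz H ≤ C.S) (h2 : H.rank ≤ c0) : Ctx :=
  { C with H := H, hH := h1, hr := h2 }

/-- provable in `n` big steps -/
def P (C : Ctx) (n : ℕ) (φ : Fm) : Prop := PP (n * (20 * C.S)) φ

variable {C : Ctx}

lemma P.mono {n n' : ℕ} {φ : Fm} (h : C.P n φ) (hn : n ≤ n') : C.P n' φ :=
  Pf.mono h (Nat.mul_le_mul_right _ hn)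

lemma P.mp {n1 n2 : ℕ} {a b : Fm} (h1 : C.P n1 a) (h2 : C.P n2 (.imp a b)) (hb : sz b ≤ C.S) :
    C.P (n1 + n2 + 1) b :=
  (Pf.mp h1 h2).mono (by simp only [add_mul]; omega)

lemma P.logic {a : Fm} (h : LogAx a) (hr : a.rank ≤ c0) (hs : sz a ≤ C.S) : C.P 1 a :=
  (Pf.logic h hr).mono (by omega)

lemma P.gen {n : ℕ} {a : Fm} (h : C.P n a) (x : ℕ) (hr : a.rank + 1 ≤ c0)
    (hs : sz (.all x a) ≤ C.S) : C.P (n + 1) (.all x a) :=
  (Pf.gen h x hr).mono (by simp only [add_mul]; omega)

lemma P.syll {n1 n2 : ℕ} {a b c : Fm} (h1 : C.P n1 (.imp a b)) (h2 : C.P n2 (.imp b c))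
    (ha : sz a ≤ C.S) (hb : sz b + sz c + 1 ≤ C.S) : C.P (n1 + n2 + 2) (.imp a c) := by
  have r := Pf.rank_le h1
  simp only [Fm.rank] at r
  have d1 : (C.withH a ha (by omega)).D n1 b := ⟨h1, by show sz b ≤ C.S; omega⟩
  have d2 : (C.withH a ha (by omega)).D (n2 + 1) (.imp b c) :=
    D.thm h2 le_rfl (by show sz _ ≤ C.S; simpa using hb)
  exact P.mono (d1.mp d2).1 (by omega)

lemma P.contra {n : ℕ} {a b : Fm} (h : C.P n (.imp a b)) (hs : 4 * (sz a + sz b) + 20 ≤ C.S) :
    C.P (n + 10) (.imp (neg b) (neg a)) := by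
  have r := Pf.rank_le h
  simp only [Fm.rank] at r
  have hb : sz (neg b) ≤ C.S := by simp; omega
  have rb : (neg b).rank ≤ c0 := by simp only [neg, Fm.rank]; omega
  set C' := C.withH (neg b) hb rb with hC'
  have hS : C'.S = C.S := rfl
  have d1 : C'.D 2 (neg b) := D.hyp C'
  have d2 : C'.D 2 _ := D.logic (LogAx.k (neg b) a) (by simp only [neg, Fm.rank]; omega)
    (by rw [hS]; simp; omega)
  have d3 : C'.D 2 _ := D.logic (LogAx.s a b .bot) (by simp only [Fm.rank]; omega)
    (by rw [hS]; simp; omega)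
  have d4 : C'.D (n + 1) (.imp a b) := D.thm h le_rfl (by rw [hS]; simp; omega)
  exact P.mono (d4.mp ((d1.mp d2).mp d3)).1 (by omega)

lemma P.efq {a : Fm} (hr : a.rank ≤ c0) (hs : 4 * sz a + 20 ≤ C.S) : C.P 4 (.imp .bot a) :=
  P.syll (P.logic (LogAx.k .bot (neg a)) (by simp only [neg, Fm.rank]; omega) (by simp; omega))
    (P.logic (LogAx.dn a) (by simp only [neg, Fm.rank]; omega) (by simp; omega))
    (by simp; omega) (by simp; omega)

lemma P.proj0 (Γ : List Fm) (h : Fm) (hh : h ∈ Γ) (hr : (imps Γ .bot).rank = 0)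
    (hs : 8 * sz (imps Γ .bot) + 20 ≤ C.S) :
    C.P (3 * Γ.length + 8) (.imp (neg h) (imps Γ .bot)) ∧ sz h ≤ sz (imps Γ .bot) ∧
      h.rank = 0 := by
  induction Γ with
  | nil => simp at hh
  | cons g Γ ih =>
    have e : imps (g :: Γ) .bot = .imp g (imps Γ .bot) := rfl
    rw [e] at hr hs ⊢
    simp only [Fm.rank] at hr
    simp only [sz_imp] at hs
    rcases List.mem_cons.mp hh with rfl | hh'
    · refine ⟨?_, by simp; omega, by omega⟩
      have p1 : C.P 4 _ := P.efq (a := imps Γ .bot) (by omega) (by omega)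
      have p2 : C.P 1 _ := P.logic (LogAx.k (.imp .bot (imps Γ .bot)) h)
        (by simp only [Fm.rank]; omega) (by simp; omega)
      have p3 : C.P 1 _ := P.logic (LogAx.s h .bot (imps Γ .bot))
        (by simp only [Fm.rank]; omega) (by simp; omega)
      exact ((p1.mp p2 (by simp; omega)).mp p3 (by simp; omega)).mono (by simp)
    · obtain ⟨i1, i2, i3⟩ := ih hh' (by omega) (by omega)
      refine ⟨?_, by simp; omega, i3⟩
      have p2 : C.P 1 _ := P.logic (LogAx.k (imps Γ .bot) g)
        (by simp only [Fm.rank]; omega) (by simp; omega)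
      exact (i1.syll p2 (by simp; omega) (by simp; omega)).mono (by simp; omega)

lemma D.proj (Γ : List Fm) (h : Fm) (hh : h ∈ Γ) (hr : (imps Γ .bot).rank = 0)
    (hs : 8 * sz (imps Γ .bot) + 40 ≤ C.S) (hH : C.H = neg (imps Γ .bot)) :
    C.D (3 * Γ.length + 21) h := by
  obtain ⟨i1, i2, i3⟩ := P.proj0 (C := C) Γ h hh hr (by omega)
  have p1 := i1.contra (by simp; omega)
  rw [← hH] at p1
  have d1 : C.D _ (neg (neg h)) := ⟨p1, by simp; omega⟩
  have d2 : C.D 2 _ := D.logic (LogAx.dn h) (by simp only [Fm.rank]; omega) (by simp; omega)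
  exact (d1.mp d2).mono (by omega)

lemma P.exT {n : ℕ} (hB : bb n ≤ C.B) (ε : Edge n) :
    C.P (24 * n + 70) (neg (.all (uv ε) (neg (ehyp ε)))) := by
  obtain ⟨d, i, j, l⟩ := ε
  set x := uv (d, i, j, l) with hx
  have hx1 : 20 ≤ x := uv_ge _
  have hx2 : x < 20 + 3 * (2 * n + 3) ^ 3 := uv_lt _
  have hd := d.isLt
  have hi := i.isLt
  have hj := j.isLt
  have hl := l.isLt
  have hc := c0_ge
  have hS := C.hS'
  have hb : 12 * (2 * n + 3) ^ 3 + 16 * (2 * n + 3) + 120 ≤ C.B := hB
  have e : ehyp (d, i, j, l) = TT (num d.val) (num i.val) (num j.val) (num l.val) (.var x) := rfl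
  rw [e]
  have hff : (neg (TT (num d.val) (num i.val) (num j.val) (num l.val) (.var x))).FreeFor x
      (.var 4) := ⟨trivial, trivial⟩
  have a1 := LogAx.inst x (.var 4) _ hff
  have e2 : (neg (TT (num d.val) (num i.val) (num j.val) (num l.val) (.var x))).subst x (.var 4)
      = neg (TT (num d.val) (num i.val) (num j.val) (num l.val) (.var 4)) := by
    simp [neg, Fm.subst, subst_TT, Tm.subst]
  rw [e2] at a1
  have p1 : C.P 1 _ := P.logic a1 (by simp [neg, Fm.rank]; omega) (by simp; omega)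
  have p2 := p1.gen 4 (by simp [neg, Fm.rank]; omega) (by simp; omega)
  have a2 := LogAx.dist 4
    (.all x (neg (TT (num d.val) (num i.val) (num j.val) (num l.val) (.var x))))
    (neg (TT (num d.val) (num i.val) (num j.val) (num l.val) (.var 4))) (by
      simp [Fm.Free, neg, free_TT, occ_num, Tm.Occ])
  have p3 := p2.mp (P.logic a2 (by simp [neg, Fm.rank]; omega) (by simp; omega))
    (by simp; omega)
  set C' := C.withH
    (.all x (neg (TT (num d.val) (num i.val) (num j.val) (num l.val) (.var x))))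
    (by simp; omega) (by simp [neg, Fm.rank]; omega) with hC'
  have hB' : bb n ≤ C'.B := hB
  have hb' : 12 * (2 * n + 3) ^ 3 + 16 * (2 * n + 3) + 120 ≤ C'.B := hB
  have d1 : C'.D _ (.all 4 (neg (TT (num d.val) (num i.val) (num j.val) (num l.val) (.var 4)))) :=
    ⟨p3, by show sz _ ≤ C.S; simp; omega⟩
  have d2 := D.inst (C := C') (imps [NatR (vr 0), NatR (vr 1), NatR (vr 2), NatR (vr 3)]
    (ex 4 (TT (vr 0) (vr 1) (vr 2) (vr 3) (vr 4))))
    [num d.val, num i.val, num j.val, num l.val] (by simp) (by show axEX ∈ A0; simp [A0, Ax0])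
    (by simp [bv, imps, ex, neg])
    (by simp [G_num hB' (a := d.val) (by omega), G_fin hB'])
  have d3 : C'.D 2 (.imp (NatR (num d.val)) (.imp (NatR (num i.val)) (.imp (NatR (num j.val))
      (.imp (NatR (num l.val)) (.imp
      (.all 4 (neg (TT (num d.val) (num i.val) (num j.val) (num l.val) (.var 4)))) .bot))))) := by
    simpa [imps, ex, neg] using d2
  have d4 := d1.mp ((D.nat_num l.val (by omega)).mp ((D.nat_num j.val (by omega)).mp
    ((D.nat_num i.val (by omega)).mp ((D.nat_num d.val (by omega)).mp d3))))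
  exact P.mono d4.1 (by omega)

end Ctx

/-- the hypotheses that remain -/
def base (n : ℕ) : List Fm := [neg (Pe (num n)), Pe (succ (num n))]

/-- the negated conjunction of the hypotheses -/
noncomputable def NN {n : ℕ} (l : List (Edge n)) : Fm := imps (l.map ehyp ++ base n) .bot

lemma NN_cons {n : ℕ} (ε : Edge n) (l : List (Edge n)) : NN (ε :: l) = .imp (ehyp ε) (NN l) := rfl

lemma sz_ehyp {n : ℕ} (ε : Edge n) : sz (ehyp ε) ≤ bb n := by
  obtain ⟨d, i, j, l⟩ := ε
  have hx2 := uv_lt (d, i, j, l)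
  have hd := d.isLt
  have hi := i.isLt
  have hj := j.isLt
  have hl := l.isLt
  simp only [ehyp, sz_TT, tz_num, tz_var, bb]
  omega

lemma sz_NN {n : ℕ} (l : List (Edge n)) : sz (NN l) ≤ l.length * (bb n + 1) + 8 * n + 25 := by
  induction l with
  | nil => simp [NN, base, imps]; omega
  | cons ε l ih =>
    have := sz_ehyp ε
    rw [NN_cons]
    simp only [sz_imp, List.length_cons]
    nlinarith

lemma rank_NN {n : ℕ} (l : List (Edge n)) : (NN l).rank = 0 := by
  induction l with
  | nil => simp [NN, base, imps, neg, Fm.rank]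
  | cons ε l ih => rw [NN_cons]; simp [Fm.rank, ih, ehyp]

lemma not_free_NN {n : ℕ} (ε : Edge n) (l : List (Edge n)) (h : ε ∉ l) : ¬ (NN l).Free (uv ε) := by
  induction l with
  | nil => simp [NN, base, imps, neg, Fm.Free, free_Pe, occ_succ, occ_num]
  | cons η l ih =>
    simp only [List.mem_cons, not_or] at h
    rw [NN_cons]
    simp only [Fm.Free, ih h.2, or_false, ehyp, free_TT, occ_num, false_or, Tm.Occ]
    exact fun e => h.1 (uv_inj e).symm

lemma Ctx.P.elim {C : Ctx} {n : ℕ} (hB : bb n ≤ C.B) (l : List (Edge n)) (hl : l.Nodup)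
    (hs : 10 * (l.length * (bb n + 1) + 8 * n + 25) + 10 * bb n + 100 ≤ C.S) {N : ℕ}
    (h : C.P N (NN l)) : C.P (N + l.length * (24 * n + 90)) (NN ([] : List (Edge n))) := by
  induction l generalizing N with
  | nil => simpa using h
  | cons ε l ih =>
    have h1 := sz_NN l
    have h2 := sz_ehyp ε
    have h3 := rank_NN l
    have hc := c0_ge
    have hx2 : uv ε ≤ bb n := by have := uv_lt ε; simp only [bb]; omega
    have hs' : 10 * (l.length * (bb n + 1) + 8 * n + 25) + 10 * bb n + 100 ≤ C.S := by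
      simp only [List.length_cons] at hs; nlinarith
    have r0 : (ehyp ε).rank = 0 := rfl
    rw [NN_cons] at h
    have p1 := h.contra (by omega)
    have p2 := p1.gen (uv ε) (by simp only [neg, Fm.rank]; omega) (by simp; omega)
    have a1 := LogAx.dist (uv ε) (neg (NN l)) (neg (ehyp ε)) (by
      simp only [neg, Fm.Free, or_false]; exact not_free_NN ε l (List.nodup_cons.mp hl).1)
    have p3 := p2.mp (P.logic a1 (by simp only [neg, Fm.rank]; omega) (by simp; omega))
      (by simp; omega)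
    have p4 := p3.syll (P.exT hB ε) (by simp; omega) (by simp; omega)
    have p5 := p4.mp (P.logic (LogAx.dn (NN l)) (by simp only [neg, Fm.rank]; omega)
      (by simp; omega))
      (by omega)
    refine (ih (List.nodup_cons.mp hl).2 hs' p5).mono ?_
    simp only [List.length_cons]
    nlinarith

/-- size bound for formulas -/
def SS (n : ℕ) : ℕ := 5 * c0 * c0 * BB n + 100 * BB n + 100 +
  (10 * (3 * (2 * n + 3) ^ 3 * (bb n + 1) + 8 * n + 25) + 10 * bb n + 100)

/-- cost of a hypothesis -/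
def KK (n : ℕ) : ℕ := 3 * (3 * (2 * n + 3) ^ 3 + 2) + 21 + (12 * n + 30)

/-- cost of one link of the chain -/
def cost (n : ℕ) : ℕ := (steps1 n (KK n) + 2 + 3 * (2 * n + 3) ^ 3 * (24 * n + 90)) * (20 * SS n)

theorem link (n : ℕ) : PP (cost n) (.imp (neg (Pe (num n))) (neg (Pe (num (n + 1))))) := by
  set l : List (Edge n) := (Finset.univ : Finset (Edge n)).toList with hl
  have hlen : l.length = 3 * (2 * n + 3) ^ 3 := by
    rw [hl, Finset.length_toList, Finset.card_univ, card_edge]
  have h1 := sz_NN l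
  have h3 := rank_NN l
  rw [hlen] at h1
  have hbB := bb_le_BB n
  let C : Ctx := ⟨BB n, SS n, neg (NN l), by simp only [BB]; omega, by simp only [SS]; omega,
    by simp only [sz_neg, SS]; omega, by simp only [neg, Fm.rank]; omega⟩
  have hS : C.S = SS n := rfl
  have hB : C.B = BB n := rfl
  have hproj : ∀ h ∈ l.map ehyp ++ base n, C.D (KK n) h := by
    intro h hh
    refine (Ctx.D.proj (C := C) _ h hh h3 (by
      show 8 * sz (NN l) + 40 ≤ SS n
      simp only [SS]; omega) rfl).mono ?_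
    simp only [List.length_append, List.length_map, hlen, base, List.length_cons, List.length_nil,
      KK]
    omega
  have hper : C.Per n (KK n) := by
    refine ⟨(Ctx.D.period n ?_).mono (by simp only [KK]; omega), hproj _ (by simp [base]),
      hproj _ (by simp [base])⟩
    rw [hB]; simp only [bb] at hbB; omega
  have d1 := Ctx.D.refute (C := C) le_rfl hper fun ε =>
    hproj _ (List.mem_append_left _ (List.mem_map.mpr ⟨ε, by simp [hl], rfl⟩))
  have p1 : C.P _ (.imp (neg (NN l)) .bot) := d1.1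
  have p2 := p1.mp (Ctx.P.logic (LogAx.dn (NN l)) (by simp only [neg, Fm.rank]; omega)
    (by rw [hS]; simp only [sz_imp, sz_bot, sz_neg, SS]; omega)) (by rw [hS]; simp only [SS]; omega)
  have p3 := p2.elim hbB l (Finset.nodup_toList _) (by rw [hS, hlen]; simp only [SS]; omega)
  rw [hlen] at p3
  exact p3

/-- functions given by polynomials -/
def PolyF (f : ℕ → ℕ) : Prop := ∃ P : Polynomial ℕ, ∀ n, f n = P.eval n

lemma PolyF.const (c : ℕ) : PolyF fun _ => c := ⟨Polynomial.C c, by simp⟩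
lemma PolyF.id : PolyF fun n => n := ⟨Polynomial.X, by simp⟩
lemma PolyF.add {f g : ℕ → ℕ} (hf : PolyF f) (hg : PolyF g) : PolyF fun n => f n + g n := by
  obtain ⟨P, hP⟩ := hf
  obtain ⟨R, hR⟩ := hg
  exact ⟨P + R, by simp [hP, hR]⟩
lemma PolyF.mul {f g : ℕ → ℕ} (hf : PolyF f) (hg : PolyF g) : PolyF fun n => f n * g n := by
  obtain ⟨P, hP⟩ := hf
  obtain ⟨R, hR⟩ := hg
  exact ⟨P * R, by simp [hP, hR]⟩
lemma PolyF.pow {f : ℕ → ℕ} (hf : PolyF f) (k : ℕ) : PolyF fun n => f n ^ k := by
  obtain ⟨P, hP⟩ := hf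
  exact ⟨P ^ k, by simp [hP]⟩

lemma eval_mono (P : Polynomial ℕ) {a b : ℕ} (h : a ≤ b) : P.eval a ≤ P.eval b := by
  rw [Polynomial.eval_eq_sum_range, Polynomial.eval_eq_sum_range]
  gcongr

lemma polyF_cost : PolyF cost := by
  unfold cost steps1 KK SS BB bb
  repeat' first
    | with_reducible exact PolyF.id
    | with_reducible exact PolyF.const _
    | with_reducible apply PolyF.add
    | with_reducible apply PolyF.mul
    | with_reducible apply PolyF.pow

theorem m6 : M6Statement := by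
  obtain ⟨P, hP⟩ := polyF_cost
  refine ⟨c0, Polynomial.C 10 + Polynomial.X * (P + Polynomial.C 4 * Polynomial.X +
    Polynomial.C 14), fun n => ?_⟩
  have key : ∀ n, PP (10 + n * (P.eval n + 4 * n + 14)) (neg (Pe (num n))) := by
    intro n
    induction n with
    | zero =>
      have h : axP0 ∈ A0 := by simp [A0, Ax0]
      exact (Pf.ax h ((rank_le_sz _).trans (sz_le_c0 h))).mono (by simp [axP0])
    | succ n ih =>
      refine (Pf.mp ih (link n)).mono ?_
      have := eval_mono P (Nat.le_succ n)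
      rw [hP]
      simp only [sz_neg, sz_Pe, tz_num, Nat.succ_eq_add_one] at this ⊢
      nlinarith
  obtain ⟨p, h1, h2, h3, h4⟩ := key n
  exact ⟨p, h1, h2, by simpa using h3, h4⟩

end Pool.Agent.MP_8ec908_lc.H78
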