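import Pool.Agent.MP_8ec908_lc.H78.Basic

namespace Pool.Agent.MP_8ec908_lc.H78

open Pool.Agent.MP_8ec908_lc.Defs

/-- the base theory -/
def A0 : List Fm := Q ++ Ax0

/-- a bound for the sizes of the axioms; also used as the rank bound -/
@[irreducible] def c0 : ℕ := (A0.map sz).sum

lemma sz_le_c0 {a : Fm} (h : a ∈ A0) : sz a ≤ c0 := by
  unfold c0
  exact List.single_le_sum (by simp) _ (List.mem_map.mpr ⟨a, h, rfl⟩)

lemma c0_ge : 10 ≤ c0 := by
  have h : axX4 ∈ A0 := by simp [A0, Ax0]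
  have := sz_le_c0 h
  simp [axX4] at this
  omega

/-- proofs from `A0` of rank at most `c0` -/
abbrev PP (L : ℕ) (φ : Fm) : Prop := Pf A0 c0 L φ

structure Ctx where
  B : ℕ
  S : ℕ
  H : Fm
  hB : 1 ≤ B
  hS : 5 * c0 * c0 * B + 100 * B + 100 ≤ S
  hH : sz H ≤ S
  hr : H.rank ≤ c0

/-- derivable from the hypothesis `C.H` in `n` big steps -/
def Ctx.D (C : Ctx) (n : ℕ) (φ : Fm) : Prop :=
  PP (n * (20 * C.S)) (.imp C.H φ) ∧ sz φ ≤ C.S

/-- good terms -/
def Ctx.G (C : Ctx) (t : Tm) : Prop := High t ∧ tz t ≤ C.B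

namespace Ctx

variable {C : Ctx}

lemma hS' (C : Ctx) : 100 * C.B + 100 ≤ C.S := le_trans (by omega) C.hS

lemma D.mono {n n' : ℕ} {φ : Fm} (h : C.D n φ) (hn : n ≤ n') : C.D n' φ :=
  ⟨h.1.mono (Nat.mul_le_mul_right _ hn), h.2⟩

lemma D.mp {n1 n2 : ℕ} {a b : Fm} (h1 : C.D n1 a) (h2 : C.D n2 (.imp a b)) :
    C.D (n1 + n2 + 1) b := by
  have r1 := h1.1.rank_le
  have r2 := h2.1.rank_le
  have s1 := h2.2
  have s2 := C.hH
  have s3 := C.hS'
  have hax : PP _ _ := Pf.logic (LogAx.s C.H a b) (by simp only [Fm.rank] at r1 r2 ⊢; omega)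
  have h3 := Pf.mp h1.1 (Pf.mp h2.1 hax)
  simp only [sz_imp] at s1 h3
  refine ⟨h3.mono ?_, by omega⟩
  simp only [add_mul]
  omega

lemma D.thm {n L : ℕ} {a : Fm} (h : PP L a) (hL : L ≤ n * (20 * C.S)) (hs : sz a ≤ C.S) :
    C.D (n + 1) a := by
  have r1 := h.rank_le
  have r2 := C.hr
  have s2 := C.hH
  have s3 := C.hS'
  have hax : PP _ _ := Pf.logic (LogAx.k a C.H) (by simp only [Fm.rank]; omega)
  have h3 := Pf.mp h hax
  simp only [sz_imp] at h3
  refine ⟨h3.mono ?_, hs⟩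
  simp only [add_mul]
  omega

lemma D.thm1 {L : ℕ} {a : Fm} (h : PP L a) (hL : L ≤ C.S) : C.D 2 a :=
  D.thm (n := 1) h (by omega) (h.sz_le.trans hL)

lemma D.logic {a : Fm} (h : LogAx a) (hr : a.rank ≤ c0) (hs : sz a ≤ C.S) : C.D 2 a :=
  D.thm1 (Pf.logic h hr) hs

lemma D.hyp (C : Ctx) : C.D 2 C.H := by
  have r2 := C.hr
  have s2 := C.hH
  have s3 := C.hS'
  have a1 : PP _ _ := Pf.logic (LogAx.s C.H (.imp C.H C.H) C.H) (by simp only [Fm.rank]; omega)
  have a2 : PP _ _ := Pf.logic (LogAx.k C.H (.imp C.H C.H)) (by simp only [Fm.rank]; omega)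
  have a3 : PP _ _ := Pf.logic (LogAx.k C.H C.H) (by simp only [Fm.rank]; omega)
  have h := Pf.mp a3 (Pf.mp a2 a1)
  simp only [sz_imp] at h
  exact ⟨h.mono (by omega), s2⟩

/-- instance of an axiom -/
lemma D.inst (φ : Fm) (ts : List Tm) (hr : ts.length ≤ 20)
    (hmem : alls (List.range ts.length) φ ∈ A0) (hbv : ∀ z ∈ bv φ, ts.length ≤ z ∧ z < 20)
    (hts : ∀ t ∈ ts, C.G t) : C.D 2 (fmap (fun y => ts.getD y (.var y)) φ) :=
  D.thm1 (Pf.inst_ax C.B c0 C.hB φ ts hr hmem (sz_le_c0 hmem) le_rfl hbv hts)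
    (le_trans (by omega) C.hS)

lemma D.ax {φ : Fm} (hmem : φ ∈ A0) : C.D 2 φ :=
  D.thm1 (Pf.ax hmem ((rank_le_sz _).trans (sz_le_c0 hmem))) (by
    have h1 := sz_le_c0 hmem
    have h2 := C.hS
    have h3 := C.hB
    have h4 : c0 ≤ c0 * c0 * C.B := by
      calc c0 ≤ c0 * c0 := Nat.le_mul_self c0
        _ ≤ c0 * c0 * C.B := Nat.le_mul_of_pos_right _ h3
    nlinarith)

end Ctx

/-! ### simp lemmas for `tmap`, `fmap`, `subst` -/

@[simp] lemma tmap_vr (σ : ℕ → Tm) (i : ℕ) : tmap σ (.var i) = σ i := rfl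
@[simp] lemma tmap_zero (σ : ℕ → Tm) : tmap σ zero = zero := by
  simp only [zero, tmap]; congr 1; funext i; exact i.elim0
@[simp] lemma tmap_succ (σ : ℕ → Tm) (t : Tm) : tmap σ (succ t) = succ (tmap σ t) := by
  simp only [succ, tmap]; congr 1; funext i; fin_cases i; rfl
@[simp] lemma tmap_add (σ : ℕ → Tm) (s t : Tm) :
    tmap σ (add s t) = add (tmap σ s) (tmap σ t) := by
  simp only [add, tmap]; congr 1; funext i; fin_cases i <;> rfl
@[simp] lemma tmap_xor (σ : ℕ → Tm) (s t : Tm) :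
    tmap σ (xor s t) = xor (tmap σ s) (tmap σ t) := by
  simp only [xor, tmap]; congr 1; funext i; fin_cases i <;> rfl
@[simp] lemma tmap_num (σ : ℕ → Tm) (n : ℕ) : tmap σ (num n) = num n := by
  induction n with
  | zero => simp [num]
  | succ n ih => simp [num, ih]
@[simp] lemma tmap_rho (σ : ℕ → Tm) (d i j l a b c e : Tm) :
    tmap σ (rho d i j l a b c e) = rho (tmap σ d) (tmap σ i) (tmap σ j) (tmap σ l) (tmap σ a)
      (tmap σ b) (tmap σ c) (tmap σ e) := by
  simp only [rho, tmap]; congr 1; funext i; fin_cases i <;> rfl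
@[simp] lemma fmap_TT (σ : ℕ → Tm) (d i j l u : Tm) :
    fmap σ (TT d i j l u) = TT (tmap σ d) (tmap σ i) (tmap σ j) (tmap σ l) (tmap σ u) := by
  simp only [TT, fmap]; congr 1; funext i; fin_cases i <;> rfl
@[simp] lemma fmap_Pe (σ : ℕ → Tm) (t : Tm) : fmap σ (Pe t) = Pe (tmap σ t) := by
  simp only [Pe, fmap]; congr 1; funext i; fin_cases i; rfl
@[simp] lemma fmap_NatR (σ : ℕ → Tm) (t : Tm) : fmap σ (NatR t) = NatR (tmap σ t) := by
  simp only [NatR, fmap]; congr 1; funext i; fin_cases i; rfl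
@[simp] lemma fmap_bot (σ : ℕ → Tm) : fmap σ .bot = .bot := rfl
@[simp] lemma fmap_eq (σ : ℕ → Tm) (s t : Tm) :
    fmap σ (.eq s t) = .eq (tmap σ s) (tmap σ t) := rfl
@[simp] lemma fmap_imp (σ : ℕ → Tm) (a b : Fm) :
    fmap σ (.imp a b) = .imp (fmap σ a) (fmap σ b) := rfl
@[simp] lemma fmap_all (σ : ℕ → Tm) (y : ℕ) (a : Fm) :
    fmap σ (.all y a) = .all y (fmap σ a) := rfl
@[simp] lemma fmap_neg (σ : ℕ → Tm) (a : Fm) : fmap σ (neg a) = neg (fmap σ a) := rfl

@[simp] lemma bv_TT (d i j l u : Tm) : bv (TT d i j l u) = [] := rfl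
@[simp] lemma bv_Pe (t : Tm) : bv (Pe t) = [] := rfl
@[simp] lemma bv_NatR (t : Tm) : bv (NatR t) = [] := rfl
@[simp] lemma rank_TT (d i j l u : Tm) : (TT d i j l u).rank = 0 := rfl
@[simp] lemma rank_Pe (t : Tm) : (Pe t).rank = 0 := rfl
@[simp] lemma rank_NatR (t : Tm) : (NatR t).rank = 0 := rfl

lemma subst_eq_tmap (x : ℕ) (u t : Tm) :
    t.subst x u = tmap (fun y => if y = x then u else .var y) t := by
  have := tmap_subst Tm.var x u t
  rw [tmap_var] at this
  rw [this]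
  rfl

@[simp] lemma subst_xor (x : ℕ) (u s t : Tm) :
    (xor s t).subst x u = xor (s.subst x u) (t.subst x u) := by simp [subst_eq_tmap]
@[simp] lemma subst_succ (x : ℕ) (u t : Tm) :
    (succ t).subst x u = succ (t.subst x u) := by simp [subst_eq_tmap]
@[simp] lemma subst_num (x : ℕ) (u : Tm) (n : ℕ) : (num n).subst x u = num n := by
  simp [subst_eq_tmap]
lemma subst_TT (x : ℕ) (u d i j l w : Tm) :
    (TT d i j l w).subst x u = TT (d.subst x u) (i.subst x u) (j.subst x u) (l.subst x u)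
      (w.subst x u) := by
  simp only [TT, Fm.subst]; congr 1; funext i; fin_cases i <;> rfl

lemma High.subst0 {t : Tm} (h : High t) (u : Tm) : t.subst 0 u = t :=
  subst_of_not_occ (h 0 (by norm_num)) u

lemma occ_zero (x : ℕ) : ¬ zero.Occ x := by simp [zero, Tm.Occ]
lemma occ_succ (x : ℕ) (t : Tm) : (succ t).Occ x ↔ t.Occ x := by simp [succ, Tm.Occ]
lemma occ_add (x : ℕ) (s t : Tm) : (add s t).Occ x ↔ s.Occ x ∨ t.Occ x := by
  simp [add, Tm.Occ, Fin.exists_fin_two]
lemma occ_xor (x : ℕ) (s t : Tm) : (xor s t).Occ x ↔ s.Occ x ∨ t.Occ x := by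
  simp [xor, Tm.Occ, Fin.exists_fin_two]
lemma occ_num (x n : ℕ) : ¬ (num n).Occ x := by
  induction n with
  | zero => exact occ_zero x
  | succ n ih => simpa [num, occ_succ] using ih
lemma occ_rho (x : ℕ) (d i j l a b c e : Tm) : (rho d i j l a b c e).Occ x ↔
    d.Occ x ∨ i.Occ x ∨ j.Occ x ∨ l.Occ x ∨ a.Occ x ∨ b.Occ x ∨ c.Occ x ∨ e.Occ x := by
  simp [rho, Tm.Occ, Fin.exists_fin_succ]
lemma free_TT (x : ℕ) (d i j l u : Tm) : (TT d i j l u).Free x ↔
    d.Occ x ∨ i.Occ x ∨ j.Occ x ∨ l.Occ x ∨ u.Occ x := by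
  simp [TT, Fm.Free, Fin.exists_fin_succ]
lemma free_Pe (x : ℕ) (t : Tm) : (Pe t).Free x ↔ t.Occ x := by simp [Pe, Fm.Free]

lemma high_zero : High zero := fun x _ => occ_zero x
lemma high_num (n : ℕ) : High (num n) := fun x _ => occ_num x n
lemma High.succ {t : Tm} (h : High t) : High (succ t) := fun x hx => by
  rw [occ_succ]; exact h x hx
lemma High.add {s t : Tm} (hs : High s) (ht : High t) : High (add s t) := fun x hx => by
  rw [occ_add]; exact fun h => h.elim (hs x hx) (ht x hx)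
lemma High.xor {s t : Tm} (hs : High s) (ht : High t) : High (xor s t) := fun x hx => by
  rw [occ_xor]; exact fun h => h.elim (hs x hx) (ht x hx)
lemma high_var {i : ℕ} (h : 20 ≤ i) : High (.var i) := fun x hx => by
  simp only [Tm.Occ]; omega
lemma high_rho {d i j l a b c e : Tm} (hd : High d) (hi : High i) (hj : High j) (hl : High l)
    (ha : High a) (hb : High b) (hc : High c) (he : High e) : High (rho d i j l a b c e) := by
  intro x hx
  rw [occ_rho]
  simp [hd x hx, hi x hx, hj x hx, hl x hx, ha x hx, hb x hx, hc x hx, he x hx]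

namespace Ctx

variable {C : Ctx}

/-! ### equality -/

lemma D.refl {t : Tm} (ht : tz t ≤ 10 * C.B) : C.D 2 (.eq t t) :=
  D.logic (LogAx.refl t) (by simp [Fm.rank]) (by have := C.hS'; simp; omega)

lemma D.symm {n : ℕ} {s t : Tm} (hs : C.G s) (ht : C.G t) (h : C.D n (.eq s t)) :
    C.D (n + 6) (.eq t s) := by
  have hax := LogAx.leib 0 s t (.eq (.var 0) s) trivial
  simp only [Fm.subst, Tm.subst, if_true, hs.1.subst0] at hax
  have h1 : C.D 2 _ := D.logic hax (by simp [Fm.rank])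
    (by have := C.hS'; have := hs.2; have := ht.2; simp; omega)
  exact ((D.refl (by have := hs.2; omega)).mp (h.mp h1)).mono (by omega)

lemma D.trans {n1 n2 : ℕ} {s t u : Tm} (hs : C.G s) (ht : C.G t) (hu : C.G u)
    (h1 : C.D n1 (.eq s t)) (h2 : C.D n2 (.eq t u)) : C.D (n1 + n2 + 4) (.eq s u) := by
  have hax := LogAx.leib 0 t u (.eq s (.var 0)) trivial
  simp only [Fm.subst, Tm.subst, if_true, hs.1.subst0] at hax
  have h3 : C.D 2 _ := D.logic hax (by simp [Fm.rank])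
    (by have := C.hS'; have := hs.2; have := ht.2; have := hu.2; simp; omega)
  exact (h1.mp (h2.mp h3)).mono (by omega)

lemma D.congr_xor {n : ℕ} {a s t : Tm} (ha : C.G a) (hs : C.G s) (ht : C.G t)
    (h : C.D n (.eq s t)) : C.D (n + 6) (.eq (xor a s) (xor a t)) := by
  have hax := LogAx.leib 0 s t (.eq (xor a s) (xor a (.var 0))) trivial
  simp only [Fm.subst, subst_xor, Tm.subst, if_true, hs.1.subst0, ha.1.subst0] at hax
  have h1 : C.D 2 _ := D.logic hax (by simp [Fm.rank])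
    (by have := C.hS'; have := hs.2; have := ht.2; have := ha.2; simp; omega)
  exact ((D.refl (by have := hs.2; have := ha.2; have := C.hB; simp; omega)).mp
    (h.mp h1)).mono (by omega)

lemma D.congr_succ {n : ℕ} {s t : Tm} (hs : C.G s) (ht : C.G t)
    (h : C.D n (.eq s t)) : C.D (n + 6) (.eq (succ s) (succ t)) := by
  have hax := LogAx.leib 0 s t (.eq (succ s) (succ (.var 0))) trivial
  simp only [Fm.subst, subst_succ, Tm.subst, if_true, hs.1.subst0] at hax
  have h1 : C.D 2 _ := D.logic hax (by simp [Fm.rank])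
    (by have := C.hS'; have := hs.2; have := ht.2; simp; omega)
  exact ((D.refl (by have := hs.2; have := C.hB; simp; omega)).mp (h.mp h1)).mono (by omega)

/-! ### axiom instances -/

lemma D.x1 {a b c : Tm} (ha : C.G a) (hb : C.G b) (hc : C.G c) :
    C.D 2 (.eq (xor a (xor b c)) (xor b (xor a c))) := by
  have := D.inst (C := C) (.eq (xor (vr 0) (xor (vr 1) (vr 2))) (xor (vr 1) (xor (vr 0) (vr 2))))
    [a, b, c] (by simp) (by show axX1 ∈ A0; simp [A0, Ax0]) (by simp [bv]) (by simp [ha, hb, hc])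
  simpa using this

lemma D.x2 {a b : Tm} (ha : C.G a) (hb : C.G b) :
    C.D 2 (.eq (xor a (xor a b)) (xor zero b)) := by
  have := D.inst (C := C) (.eq (xor (vr 0) (xor (vr 0) (vr 1))) (xor zero (vr 1)))
    [a, b] (by simp) (by show axX2 ∈ A0; simp [A0, Ax0]) (by simp [bv]) (by simp [ha, hb])
  simpa using this

lemma D.x3 {a b : Tm} (ha : C.G a) (hb : C.G b) :
    C.D 2 (.eq (xor zero (xor a b)) (xor a b)) := by
  have := D.inst (C := C) (.eq (xor zero (xor (vr 0) (vr 1))) (xor (vr 0) (vr 1)))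
    [a, b] (by simp) (by show axX3 ∈ A0; simp [A0, Ax0]) (by simp [bv]) (by simp [ha, hb])
  simpa using this

lemma D.x4 : C.D 2 (.eq (xor zero zero) zero) := D.ax (by show axX4 ∈ A0; simp [A0, Ax0])

lemma D.x5 : C.D 2 (neg (.eq (xor (num 1) zero) zero)) :=
  D.ax (by show axX5 ∈ A0; simp [A0, Ax0])

lemma D.add_zero {a : Tm} (ha : C.G a) : C.D 2 (.eq (add a zero) a) := by
  have := D.inst (C := C) (.eq (add (vr 0) zero) (vr 0))
    [a] (by simp) (by simp [A0, Q, alls, List.range, List.range.loop]) (by simp [bv])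
    (by simp [ha])
  simpa using this

lemma D.add_succ {a b : Tm} (ha : C.G a) (hb : C.G b) :
    C.D 2 (.eq (add a (succ b)) (succ (add a b))) := by
  have := D.inst (C := C) (.eq (add (vr 0) (succ (vr 1))) (succ (add (vr 0) (vr 1))))
    [a, b] (by simp) (by simp [A0, Q, alls, List.range, List.range.loop]) (by simp [bv])
    (by simp [ha, hb])
  simpa using this

lemma D.natS {a : Tm} (ha : C.G a) : C.D 2 (.imp (NatR a) (NatR (succ a))) := by
  have := D.inst (C := C) (.imp (NatR (vr 0)) (NatR (succ (vr 0))))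
    [a] (by simp) (by show axNS ∈ A0; simp [A0, Ax0]) (by simp [bv]) (by simp [ha])
  simpa using this

lemma D.nat_num (n : ℕ) (hn : 4 * n + 3 ≤ C.B) : C.D (3 * n + 2) (NatR (num n)) := by
  induction n with
  | zero => exact D.ax (by show axN0 ∈ A0; simp [A0, Ax0])
  | succ n ih =>
    exact ((ih (by omega)).mp (D.natS ⟨high_num n, by simp; omega⟩)).mono (by omega)

lemma D.add_num (a b : ℕ) (h : 4 * (a + b) + 11 ≤ C.B) :
    C.D (12 * b + 2) (.eq (add (num a) (num b)) (num (a + b))) := by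
  induction b with
  | zero => exact D.add_zero ⟨high_num a, by simp; omega⟩
  | succ b ih =>
    have g1 : C.G (num a) := ⟨high_num a, by simp; omega⟩
    have g2 : C.G (num b) := ⟨high_num b, by simp; omega⟩
    have g3 : C.G (add (num a) (num b)) := ⟨g1.1.add g2.1, by simp; omega⟩
    have g4 : C.G (num (a + b)) := ⟨high_num _, by simp; omega⟩
    have h1 := D.add_succ g1 g2
    have h2 := D.congr_succ g3 g4 (ih (by omega))
    have h3 := D.trans (C := C) ⟨g1.1.add g2.1.succ, by simp; omega⟩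
      ⟨g3.1.succ, by simp; omega⟩ ⟨g4.1.succ, by simp; omega⟩ h1 h2
    exact h3.mono (by omega)

lemma D.period (n : ℕ) (h : 8 * n + 30 ≤ C.B) :
    C.D (12 * n + 30)
      (.eq (num (2 * n + 3)) (succ (add (succ (num n)) (succ (num n))))) := by
  have h1 := D.add_num (C := C) (n + 1) (n + 1) (by omega)
  have g1 : C.G (add (num (n + 1)) (num (n + 1))) :=
    ⟨(high_num _).add (high_num _), by simp; omega⟩
  have g2 : C.G (num (n + 1 + (n + 1))) := ⟨high_num _, by simp; omega⟩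
  have h2 := D.congr_succ g2 g1 (D.symm g1 g2 h1)
  have e : 2 * n + 3 = (n + 1 + (n + 1)) + 1 := by ring
  rw [e]
  exact h2.mono (by omega)

end Ctx

end Pool.Agent.MP_8ec908_lc.H78
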