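import Pool.Agent.MP_8ec908_lc.H78.Theory

namespace Pool.Agent.MP_8ec908_lc.H78

open Pool.Agent.MP_8ec908_lc.Defs

/-- size of a term -/
def tz (t : Tm) : ℕ := t.str.length
/-- size of a formula -/
def sz (a : Fm) : ℕ := a.str.length

@[simp] lemma idx_length (i : ℕ) : (idx i).length = i + 1 := by simp [idx]

@[simp] lemma tz_var (i : ℕ) : tz (.var i) = i + 2 := by simp [tz, Tm.str]

lemma tz_app (k n : ℕ) (ts : Fin n → Tm) :
    tz (.app k n ts) = k + n + 3 + ∑ i, tz (ts i) := by
  simp only [tz, Tm.str, List.length_cons, List.length_append, idx_length, List.length_flatten,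
    List.map_ofFn, List.sum_ofFn, Function.comp]
  ring

@[simp] lemma sz_bot : sz .bot = 1 := by simp [sz, Fm.str]
@[simp] lemma sz_eq (s t : Tm) : sz (.eq s t) = tz s + tz t + 1 := by simp [sz, tz, Fm.str]
lemma sz_rel (k n : ℕ) (ts : Fin n → Tm) :
    sz (.rel k n ts) = k + n + 3 + ∑ i, tz (ts i) := by
  simp only [sz, tz, Fm.str, List.length_cons, List.length_append, idx_length, List.length_flatten,
    List.map_ofFn, List.sum_ofFn, Function.comp]
  ring
@[simp] lemma sz_imp (a b : Fm) : sz (.imp a b) = sz a + sz b + 1 := by simp [sz, Fm.str]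
@[simp] lemma sz_all (x : ℕ) (a : Fm) : sz (.all x a) = sz a + x + 2 := by
  simp [sz, Fm.str]; ring
@[simp] lemma sz_neg (a : Fm) : sz (neg a) = sz a + 2 := by simp [neg]

@[simp] lemma tz_zero : tz zero = 3 := by simp [zero, tz_app]
@[simp] lemma tz_succ (t : Tm) : tz (succ t) = tz t + 4 := by simp [succ, tz_app]; ring
@[simp] lemma tz_add (s t : Tm) : tz (add s t) = tz s + tz t + 5 := by
  simp [add, tz_app]; ring
@[simp] lemma tz_xor (s t : Tm) : tz (xor s t) = tz s + tz t + 7 := by
  simp [xor, tz_app]; ring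
@[simp] lemma tz_num (n : ℕ) : tz (num n) = 4 * n + 3 := by
  induction n with
  | zero => simp [num]
  | succ n ih => simp [num, ih]; ring
@[simp] lemma tz_rho (d i j l a b c e : Tm) : tz (rho d i j l a b c e) =
    tz d + tz i + tz j + tz l + tz a + tz b + tz c + tz e + 11 := by
  simp [rho, tz_app, Fin.sum_univ_succ]; ring
@[simp] lemma sz_TT (d i j l u : Tm) : sz (TT d i j l u) =
    tz d + tz i + tz j + tz l + tz u + 8 := by
  simp [TT, sz_rel, Fin.sum_univ_succ]; ring
@[simp] lemma sz_Pe (t : Tm) : sz (Pe t) = tz t + 5 := by simp [Pe, sz_rel]; ring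
@[simp] lemma sz_NatR (t : Tm) : sz (NatR t) = tz t + 4 := by simp [NatR, sz_rel]; ring

lemma rank_le_sz (a : Fm) : a.rank ≤ sz a := by
  induction a with
  | bot => simp [Fm.rank]
  | eq s t => simp [Fm.rank]
  | rel k n ts => simp [Fm.rank]
  | imp a b iha ihb => simp only [Fm.rank, sz_imp]; omega
  | all x a ih => simp only [Fm.rank, sz_all]; omega

lemma isProof_append {A : List Fm} {p q : List Fm} (hp : IsProof A p) (hq : IsProof A q) :
    IsProof A (p ++ q) := by
  induction hp with
  | nil => simpa using hq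
  | logic p a _ h ih => exact IsProof.logic _ a ih h
  | ax p a _ h ih => exact IsProof.ax _ a ih h
  | mp p a b _ h1 h2 ih =>
    exact IsProof.mp _ a b ih (List.mem_append_left _ h1) (List.mem_append_left _ h2)
  | gen p x a _ h ih => exact IsProof.gen _ x a ih (List.mem_append_left _ h)

lemma len_cons (a : Fm) (p : List Fm) : len (a :: p) = sz a + len p := by simp [len, sz]
lemma len_append (p q : List Fm) : len (p ++ q) = len p + len q := by simp [len]

/-- provable with total length at most `L` and all ranks at most `k` -/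
def Pf (A : List Fm) (k L : ℕ) (φ : Fm) : Prop :=
  ∃ p, IsProof A p ∧ φ ∈ p ∧ len p ≤ L ∧ ∀ b ∈ p, b.rank ≤ k

variable {A : List Fm} {k : ℕ}

lemma Pf.mono {L L' : ℕ} {φ : Fm} (h : Pf A k L φ) (hL : L ≤ L') : Pf A k L' φ := by
  obtain ⟨p, h1, h2, h3, h4⟩ := h
  exact ⟨p, h1, h2, h3.trans hL, h4⟩

lemma Pf.rank_le {L : ℕ} {φ : Fm} (h : Pf A k L φ) : φ.rank ≤ k := by
  obtain ⟨p, -, h2, -, h4⟩ := h
  exact h4 _ h2

lemma Pf.sz_le {L : ℕ} {φ : Fm} (h : Pf A k L φ) : sz φ ≤ L := by
  obtain ⟨p, -, h2, h3, -⟩ := h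
  refine le_trans ?_ h3
  exact List.single_le_sum (by simp) _ (List.mem_map.mpr ⟨φ, h2, rfl⟩)

lemma Pf.logic {a : Fm} (h : LogAx a) (hr : a.rank ≤ k) : Pf A k (sz a) a :=
  ⟨[a], IsProof.logic _ a IsProof.nil h, by simp, by simp [len, sz], by simpa using hr⟩

lemma Pf.ax {a : Fm} (h : a ∈ A) (hr : a.rank ≤ k) : Pf A k (sz a) a :=
  ⟨[a], IsProof.ax _ a IsProof.nil h, by simp, by simp [len, sz], by simpa using hr⟩

lemma Pf.mp {L1 L2 : ℕ} {a b : Fm} (h1 : Pf A k L1 a) (h2 : Pf A k L2 (.imp a b)) :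
    Pf A k (L1 + L2 + sz b) b := by
  have hr := h2.rank_le
  obtain ⟨p, hp, ha, hl, hk⟩ := h1
  obtain ⟨q, hq, hb, hl', hk'⟩ := h2
  refine ⟨b :: (p ++ q), IsProof.mp _ a b (isProof_append hp hq) (List.mem_append_left _ ha)
    (List.mem_append_right _ hb), by simp, ?_, ?_⟩
  · rw [len_cons, len_append]; omega
  · intro c hc
    rcases List.mem_cons.mp hc with rfl | hc
    · simp only [Fm.rank] at hr; omega
    · rcases List.mem_append.mp hc with hc | hc
      · exact hk c hc
      · exact hk' c hc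

lemma Pf.gen {L : ℕ} {a : Fm} (h : Pf A k L a) (x : ℕ) (hr : a.rank + 1 ≤ k) :
    Pf A k (L + sz (.all x a)) (.all x a) := by
  obtain ⟨p, hp, ha, hl, hk⟩ := h
  refine ⟨.all x a :: p, IsProof.gen _ x a hp ha, by simp, ?_, ?_⟩
  · rw [len_cons]; omega
  · intro c hc
    rcases List.mem_cons.mp hc with rfl | hc
    · simpa [Fm.rank] using hr
    · exact hk c hc

/-! ### simultaneous substitution -/

def tmap (σ : ℕ → Tm) : Tm → Tm
  | .var i => σ i
  | .app k n ts => .app k n fun i => tmap σ (ts i)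

def fmap (σ : ℕ → Tm) : Fm → Fm
  | .bot => .bot
  | .eq s t => .eq (tmap σ s) (tmap σ t)
  | .rel k n ts => .rel k n fun i => tmap σ (ts i)
  | .imp a b => .imp (fmap σ a) (fmap σ b)
  | .all y a => .all y (fmap σ a)

/-- bound variables -/
def bv : Fm → List ℕ
  | .bot => []
  | .eq _ _ => []
  | .rel _ _ _ => []
  | .imp a b => bv a ++ bv b
  | .all y a => y :: bv a

lemma subst_of_not_occ {x : ℕ} {t : Tm} (h : ¬ t.Occ x) (u : Tm) : t.subst x u = t := by
  induction t with
  | var i => simp only [Tm.Occ] at h; simp [Tm.subst, h]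
  | app k n ts ih =>
    simp only [Tm.Occ, not_exists] at h
    simp only [Tm.subst]
    congr 1
    funext i
    exact ih i (h i)

lemma tmap_subst (σ : ℕ → Tm) (x : ℕ) (u : Tm) (t : Tm) :
    (tmap σ t).subst x u = tmap (fun y => (σ y).subst x u) t := by
  induction t with
  | var i => simp [tmap]
  | app k n ts ih => simp only [tmap, Tm.subst, ih]

lemma fmap_subst (σ : ℕ → Tm) (x : ℕ) (u : Tm) (φ : Fm) (hx : x ∉ bv φ) :
    (fmap σ φ).subst x u = fmap (fun y => (σ y).subst x u) φ := by
  induction φ with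
  | bot => simp [fmap, Fm.subst]
  | eq s t => simp [fmap, Fm.subst, tmap_subst]
  | rel k n ts => simp [fmap, Fm.subst, tmap_subst]
  | imp a b iha ihb =>
    simp only [bv, List.mem_append, not_or] at hx
    simp [fmap, Fm.subst, iha hx.1, ihb hx.2]
  | all y a ih =>
    simp only [bv, List.mem_cons, not_or] at hx
    simp [fmap, Fm.subst, ih hx.2, Ne.symm hx.1]

lemma freeFor_fmap (σ : ℕ → Tm) (x : ℕ) (u : Tm) (φ : Fm) (hu : ∀ z ∈ bv φ, ¬ u.Occ z) :
    (fmap σ φ).FreeFor x u := by
  induction φ with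
  | bot => simp [fmap, Fm.FreeFor]
  | eq s t => simp [fmap, Fm.FreeFor]
  | rel k n ts => simp [fmap, Fm.FreeFor]
  | imp a b iha ihb =>
    simp only [bv, List.mem_append] at hu
    exact ⟨iha fun z hz => hu z (Or.inl hz), ihb fun z hz => hu z (Or.inr hz)⟩
  | all y a ih =>
    simp only [bv, List.mem_cons] at hu
    exact Or.inr ⟨hu y (Or.inl rfl), ih fun z hz => hu z (Or.inr hz)⟩

lemma rank_fmap (σ : ℕ → Tm) (φ : Fm) : (fmap σ φ).rank = φ.rank := by
  induction φ with
  | bot => rfl
  | eq s t => rfl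
  | rel k n ts => rfl
  | imp a b iha ihb => simp [fmap, Fm.rank, iha, ihb]
  | all y a ih => simp [fmap, Fm.rank, ih]

lemma rank_subst (x : ℕ) (u : Tm) (φ : Fm) : (φ.subst x u).rank = φ.rank := by
  induction φ with
  | bot => rfl
  | eq s t => rfl
  | rel k n ts => rfl
  | imp a b iha ihb => simp [Fm.subst, Fm.rank, iha, ihb]
  | all y a ih => by_cases h : y = x <;> simp [Fm.subst, Fm.rank, ih, h]

lemma tz_tmap (σ : ℕ → Tm) (B : ℕ) (hB : 1 ≤ B) (hσ : ∀ y, tz (σ y) ≤ (y + 2) * B) (t : Tm) :
    tz (tmap σ t) ≤ tz t * B := by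
  induction t with
  | var i => simpa [tmap] using hσ i
  | app k n ts ih =>
    simp only [tmap, tz_app, add_mul, Finset.sum_mul]
    have := Finset.sum_le_sum (s := Finset.univ) fun i _ => ih i
    nlinarith

lemma sz_fmap (σ : ℕ → Tm) (B : ℕ) (hB : 1 ≤ B) (hσ : ∀ y, tz (σ y) ≤ (y + 2) * B) (φ : Fm) :
    sz (fmap σ φ) ≤ sz φ * B := by
  induction φ with
  | bot => simpa [fmap] using hB
  | eq s t =>
    have h1 := tz_tmap σ B hB hσ s
    have h2 := tz_tmap σ B hB hσ t
    simp only [fmap, sz_eq]; nlinarith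
  | rel k n ts =>
    simp only [fmap, sz_rel, add_mul, Finset.sum_mul]
    have := Finset.sum_le_sum (s := Finset.univ) fun i _ => tz_tmap σ B hB hσ (ts i)
    nlinarith
  | imp a b iha ihb => simp only [fmap, sz_imp]; nlinarith
  | all y a ih => simp only [fmap, sz_all]; nlinarith

lemma tmap_var (t : Tm) : tmap Tm.var t = t := by
  induction t with
  | var i => rfl
  | app k n ts ih => simp only [tmap, ih]

lemma fmap_var (φ : Fm) : fmap Tm.var φ = φ := by
  induction φ with
  | bot => rfl
  | eq s t => simp [fmap, tmap_var]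
  | rel k n ts => simp [fmap, tmap_var]
  | imp a b iha ihb => simp [fmap, iha, ihb]
  | all y a ih => simp [fmap, ih]

lemma alls_subst (xs : List ℕ) (x : ℕ) (hx : x ∉ xs) (u : Tm) (ψ : Fm) :
    (alls xs ψ).subst x u = alls xs (ψ.subst x u) := by
  induction xs with
  | nil => rfl
  | cons y ys ih =>
    simp only [List.mem_cons, not_or] at hx
    have := ih hx.2
    simp only [alls, List.foldr_cons] at this ⊢
    simp [Fm.subst, Ne.symm hx.1, this]

lemma alls_freeFor (xs : List ℕ) (x : ℕ) (u : Tm) (ψ : Fm) (hu : ∀ z ∈ xs, ¬ u.Occ z)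
    (h : ψ.FreeFor x u) : (alls xs ψ).FreeFor x u := by
  induction xs with
  | nil => exact h
  | cons y ys ih =>
    exact Or.inr ⟨hu y (by simp), ih fun z hz => hu z (List.mem_cons_of_mem _ hz)⟩

lemma sz_alls_fmap (σ : ℕ → Tm) (B : ℕ) (hB : 1 ≤ B) (hσ : ∀ y, tz (σ y) ≤ (y + 2) * B)
    (xs : List ℕ) (φ : Fm) : sz (alls xs (fmap σ φ)) ≤ sz (alls xs φ) * B := by
  induction xs with
  | nil => exact sz_fmap σ B hB hσ φ
  | cons y ys ih =>
    simp only [alls, List.foldr_cons, sz_all] at ih ⊢
    nlinarith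

lemma length_le_sz_alls (xs : List ℕ) (φ : Fm) : xs.length ≤ sz (alls xs φ) := by
  induction xs with
  | nil => simp
  | cons y ys ih => simp only [alls, List.foldr_cons, sz_all, List.length_cons] at ih ⊢; omega

/-- instantiate a block of universal quantifiers -/
lemma Pf.inst_aux (σ : ℕ → Tm) (B : ℕ) (hB : 1 ≤ B) (hσ : ∀ y, tz (σ y) ≤ (y + 2) * B)
    (φ : Fm) (xs : List ℕ) (hnd : xs.Nodup) (hbv : ∀ x ∈ xs, x ∉ bv φ)
    (h1 : ∀ x ∈ xs, ∀ z ∈ bv φ, ¬ (σ x).Occ z) (h2 : ∀ x ∈ xs, ∀ y, y ∈ xs ∨ ¬ (σ y).Occ x)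
    (h3 : ∀ x ∈ xs, ∀ y ∈ xs, ¬ (σ y).Occ x)
    (c : ℕ) (hc : sz (alls xs φ) ≤ c) {L : ℕ}
    (h : Pf A k L (alls xs (fmap (fun y => if y ∈ xs then .var y else σ y) φ))) :
    Pf A k (L + xs.length * (3 * c * B + 1)) (fmap σ φ) := by
  induction xs generalizing L with
  | nil => simpa [alls] using h
  | cons x xs ih =>
    have hx : x ∉ xs := (List.nodup_cons.mp hnd).1
    have hσ' : ∀ ys : List ℕ, ∀ y, tz (if y ∈ ys then Tm.var y else σ y) ≤ (y + 2) * B := by
      intro ys y
      split_ifs
      · simp only [tz_var]; nlinarith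
      · exact hσ y
    have hfree : (alls xs (fmap (fun y => if y ∈ x :: xs then .var y else σ y) φ)).FreeFor x
        (σ x) :=
      alls_freeFor xs x _ _ (fun z hz => h3 z (List.mem_cons_of_mem _ hz) x (by simp))
        (freeFor_fmap _ _ _ _ (h1 x (by simp)))
    have hax := LogAx.inst x (σ x) _ hfree
    have heq : (alls xs (fmap (fun y => if y ∈ x :: xs then .var y else σ y) φ)).subst x (σ x)
        = alls xs (fmap (fun y => if y ∈ xs then .var y else σ y) φ) := by
      rw [alls_subst xs x hx, fmap_subst _ _ _ _ (hbv x (by simp))]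
      congr 2
      funext y
      by_cases hy : y = x
      · subst hy; simp [Tm.subst, hx]
      · by_cases hy' : y ∈ xs
        · simp [hy', Tm.subst, hy]
        · have : ¬ (σ y).Occ x := by
            rcases h2 x (by simp) y with h | h
            · simp [hy, hy'] at h
            · exact h
          simp [hy, hy', subst_of_not_occ this]
    have hr := h.rank_le
    have hrank : (Fm.imp (.all x (alls xs (fmap (fun y => if y ∈ x :: xs then .var y else σ y) φ)))
        ((alls xs (fmap (fun y => if y ∈ x :: xs then .var y else σ y) φ)).subst x (σ x))).rank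
        ≤ k := by
      simp only [Fm.rank, rank_subst]
      simp only [alls, List.foldr_cons, Fm.rank] at hr ⊢
      omega
    have h4 := Pf.mp h (Pf.logic (A := A) hax hrank)
    rw [heq] at h4
    have hc' : sz (alls xs φ) ≤ c := by
      simp only [alls, List.foldr_cons, sz_all] at hc ⊢; omega
    have h5 := ih (List.nodup_cons.mp hnd).2 (fun z hz => hbv z (List.mem_cons_of_mem _ hz))
      (fun z hz => h1 z (List.mem_cons_of_mem _ hz))
      (fun z hz y => by
        rcases h2 z (List.mem_cons_of_mem _ hz) y with h | h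
        · rcases List.mem_cons.mp h with rfl | h
          · exact Or.inr (h3 z (List.mem_cons_of_mem _ hz) _ (by simp))
          · exact Or.inl h
        · exact Or.inr h)
      (fun z hz y hy => h3 z (List.mem_cons_of_mem _ hz) y (List.mem_cons_of_mem _ hy)) hc' h4
    refine h5.mono ?_
    have s1 := sz_alls_fmap _ B hB (hσ' (x :: xs)) (x :: xs) φ
    have s2 := sz_alls_fmap _ B hB (hσ' xs) xs φ
    have s3 : sz (alls (x :: xs) φ) * B ≤ c * B := Nat.mul_le_mul_right _ hc
    have s4 : sz (alls xs φ) * B ≤ c * B := Nat.mul_le_mul_right _ hc'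
    simp only [sz_imp, List.length_cons]
    nlinarith

/-- no variable below 20 occurs -/
def High (t : Tm) : Prop := ∀ x, x < 20 → ¬ t.Occ x

/-- instantiate an axiom `∀ v₀ … v_{r-1} φ` by a list of terms -/
lemma Pf.inst_ax (B c : ℕ) (hB : 1 ≤ B) (φ : Fm) (ts : List Tm) (hr : ts.length ≤ 20)
    (hmem : alls (List.range ts.length) φ ∈ A) (hc : sz (alls (List.range ts.length) φ) ≤ c)
    (hk : c ≤ k) (hbv : ∀ z ∈ bv φ, ts.length ≤ z ∧ z < 20)
    (hts : ∀ t ∈ ts, High t ∧ tz t ≤ B) :
    Pf A k (5 * c * c * B) (fmap (fun y => ts.getD y (.var y)) φ) := by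
  have hin : ∀ y, y < ts.length → ts.getD y (.var y) ∈ ts := by
    intro y hy
    rw [List.getD_eq_getElem _ _ hy]
    exact List.getElem_mem hy
  have hout : ∀ y, ts.length ≤ y → ts.getD y (.var y) = .var y := by
    intro y hy
    exact List.getD_eq_default _ _ hy
  have h0 : Pf A k (sz (alls (List.range ts.length) φ)) (alls (List.range ts.length)
      (fmap (fun y => if y ∈ List.range ts.length then .var y else ts.getD y (.var y)) φ)) := by
    have : (fun y => if y ∈ List.range ts.length then Tm.var y else ts.getD y (.var y))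
        = Tm.var := by
      funext y
      split_ifs with h
      · rfl
      · exact hout y (by simpa using h)
    rw [this, fmap_var]
    exact Pf.ax hmem ((rank_le_sz _).trans (hc.trans hk))
  have h1 := Pf.inst_aux (fun y => ts.getD y (.var y)) B hB ?_ φ (List.range ts.length)
    List.nodup_range ?_ ?_ ?_ ?_ c hc h0
  · refine h1.mono ?_
    have h2 := length_le_sz_alls (List.range ts.length) φ
    have h3 : (List.range ts.length).length * (3 * c * B + 1) ≤ c * (3 * c * B + 1) :=
      Nat.mul_le_mul_right _ (h2.trans hc)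
    have h4 : c ≤ c * c * B := by
      calc c ≤ c * c := Nat.le_mul_self c
        _ ≤ c * c * B := Nat.le_mul_of_pos_right _ hB
    nlinarith
  · intro y
    by_cases hy : y < ts.length
    · have := (hts _ (hin y hy)).2
      nlinarith
    · simp only [hout y (by omega), tz_var]; nlinarith
  · intro x hx hx'
    have := (hbv x hx').1
    simp at hx; omega
  · intro x hx z hz
    exact (hts _ (hin x (by simpa using hx))).1 z (hbv z hz).2
  · intro x hx y
    by_cases hy : y < ts.length
    · exact Or.inl (by simpa using hy)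
    · right
      simp only [hout y (by omega), Tm.Occ]
      simp at hx; omega
  · intro x hx y hy
    exact (hts _ (hin y (by simpa using hy))).1 x (by simp at hx; omega)

end Pool.Agent.MP_8ec908_lc.H78
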