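import Pool.Agent.MP_8ec908_lc.H78.Sum

namespace Pool.Agent.MP_8ec908_lc.H78

open Pool.Agent.MP_8ec908_lc.Defs

namespace Ctx

variable {C : Ctx}

/-- the three hypotheses that give periodicity -/
def ph (x y : Tm) (a : Fm) : Fm :=
  .imp (.eq y (succ (add (succ x) (succ x)))) (.imp (neg (Pe x)) (.imp (Pe (succ x)) a))

lemma D.pt1 {x y d j l u : Tm} (hx : C.G x) (hy : C.G y) (hd : C.G d) (hj : C.G j) (hl : C.G l)
    (hu : C.G u) : C.D 2 (ph x y (.imp (TT d zero j l u) (TT d y j l u))) := by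
  have := D.inst (C := C) (perHyp
    (.imp (TT (vr 2) zero (vr 3) (vr 4) (vr 5)) (TT (vr 2) (vr 1) (vr 3) (vr 4) (vr 5))))
    [x, y, d, j, l, u] (by simp) (by show axPT1 ∈ A0; simp [A0, Ax0])
    (by simp [bv, perHyp, imps, neg]) (by simp [hx, hy, hd, hj, hl, hu])
  simpa [perHyp, imps, ph] using this

lemma D.pt2 {x y d j l u : Tm} (hx : C.G x) (hy : C.G y) (hd : C.G d) (hj : C.G j) (hl : C.G l)
    (hu : C.G u) : C.D 2 (ph x y (.imp (TT d j zero l u) (TT d j y l u))) := by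
  have := D.inst (C := C) (perHyp
    (.imp (TT (vr 2) (vr 3) zero (vr 4) (vr 5)) (TT (vr 2) (vr 3) (vr 1) (vr 4) (vr 5))))
    [x, y, d, j, l, u] (by simp) (by show axPT2 ∈ A0; simp [A0, Ax0])
    (by simp [bv, perHyp, imps, neg]) (by simp [hx, hy, hd, hj, hl, hu])
  simpa [perHyp, imps, ph] using this

lemma D.pt3 {x y d j l u : Tm} (hx : C.G x) (hy : C.G y) (hd : C.G d) (hj : C.G j) (hl : C.G l)
    (hu : C.G u) : C.D 2 (ph x y (.imp (TT d j l zero u) (TT d j l y u))) := by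
  have := D.inst (C := C) (perHyp
    (.imp (TT (vr 2) (vr 3) (vr 4) zero (vr 5)) (TT (vr 2) (vr 3) (vr 4) (vr 1) (vr 5))))
    [x, y, d, j, l, u] (by simp) (by show axPT3 ∈ A0; simp [A0, Ax0])
    (by simp [bv, perHyp, imps, neg]) (by simp [hx, hy, hd, hj, hl, hu])
  simpa [perHyp, imps, ph] using this

lemma D.pr1 {x y d j l a b c e : Tm} (hx : C.G x) (hy : C.G y) (hd : C.G d) (hj : C.G j)
    (hl : C.G l) (ha : C.G a) (hb : C.G b) (hc : C.G c) (he : C.G e) :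
    C.D 2 (ph x y (.eq (rho d zero j l a b c e) (rho d y j l a b c e))) := by
  have := D.inst (C := C) (perHyp
    (.eq (rho (vr 2) zero (vr 3) (vr 4) (vr 5) (vr 6) (vr 7) (vr 8))
       (rho (vr 2) (vr 1) (vr 3) (vr 4) (vr 5) (vr 6) (vr 7) (vr 8))))
    [x, y, d, j, l, a, b, c, e] (by simp) (by show axPR1 ∈ A0; simp [A0, Ax0])
    (by simp [bv, perHyp, imps, neg]) (by simp [hx, hy, hd, hj, hl, ha, hb, hc, he])
  simpa [perHyp, imps, ph] using this

lemma D.pr2 {x y d j l a b c e : Tm} (hx : C.G x) (hy : C.G y) (hd : C.G d) (hj : C.G j)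
    (hl : C.G l) (ha : C.G a) (hb : C.G b) (hc : C.G c) (he : C.G e) :
    C.D 2 (ph x y (.eq (rho d j zero l a b c e) (rho d j y l a b c e))) := by
  have := D.inst (C := C) (perHyp
    (.eq (rho (vr 2) (vr 3) zero (vr 4) (vr 5) (vr 6) (vr 7) (vr 8))
       (rho (vr 2) (vr 3) (vr 1) (vr 4) (vr 5) (vr 6) (vr 7) (vr 8))))
    [x, y, d, j, l, a, b, c, e] (by simp) (by show axPR2 ∈ A0; simp [A0, Ax0])
    (by simp [bv, perHyp, imps, neg]) (by simp [hx, hy, hd, hj, hl, ha, hb, hc, he])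
  simpa [perHyp, imps, ph] using this

lemma D.pr3 {x y d j l a b c e : Tm} (hx : C.G x) (hy : C.G y) (hd : C.G d) (hj : C.G j)
    (hl : C.G l) (ha : C.G a) (hb : C.G b) (hc : C.G c) (he : C.G e) :
    C.D 2 (ph x y (.eq (rho d j l zero a b c e) (rho d j l y a b c e))) := by
  have := D.inst (C := C) (perHyp
    (.eq (rho (vr 2) (vr 3) (vr 4) zero (vr 5) (vr 6) (vr 7) (vr 8))
       (rho (vr 2) (vr 3) (vr 4) (vr 1) (vr 5) (vr 6) (vr 7) (vr 8))))
    [x, y, d, j, l, a, b, c, e] (by simp) (by show axPR3 ∈ A0; simp [A0, Ax0])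
    (by simp [bv, perHyp, imps, neg]) (by simp [hx, hy, hd, hj, hl, ha, hb, hc, he])
  simpa [perHyp, imps, ph] using this

lemma D.cube {i j l w x y z x0 x1 x2 x3 y0 y1 y2 y3 z0 z1 z2 z3 : Tm}
    (h : ∀ t ∈ [i, j, l, w, x, y, z, x0, x1, x2, x3, y0, y1, y2, y3, z0, z1, z2, z3], C.G t) :
    C.D 2 (imps [ TT (num 0) i j l x0, TT (num 0) i (succ j) l x1, TT (num 0) i j (succ l) x2,
         TT (num 0) i (succ j) (succ l) x3,
         TT (num 1) i j l y0, TT (num 1) (succ i) j l y1, TT (num 1) i j (succ l) y2,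
         TT (num 1) (succ i) j (succ l) y3,
         TT (num 2) i j l z0, TT (num 2) (succ i) j l z1, TT (num 2) i (succ j) l z2,
         TT (num 2) (succ i) (succ j) l z3,
         .eq x (rho (num 0) (succ i) j l y1 y3 z1 z3),
         .eq y (rho (num 1) i (succ j) l x1 x3 z2 z3),
         .eq z (rho (num 2) i j (succ l) x2 x3 y2 y3) ]
      (.eq (xor (rho (num 0) i j l y0 y2 z0 z2) (xor x (xor (rho (num 1) i j l x0 x2 z0 z1)
          (xor y (xor (rho (num 2) i j l x0 x1 y0 y1) (xor z w)))))) (xor (num 1) w))) := by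
  have := D.inst (C := C) cubeM
    [i, j, l, w, x, y, z, x0, x1, x2, x3, y0, y1, y2, y3, z0, z1, z2, z3] (by simp)
    (by show axCube ∈ A0; simp [A0, Ax0]) (by simp [bv, cubeM, imps]) h
  simpa [cubeM, imps] using this

end Ctx

/-- torus edges -/
abbrev Edge (n : ℕ) : Type := Fin 3 × Fin (2 * n + 3) × Fin (2 * n + 3) × Fin (2 * n + 3)

/-- index of the variable of an edge -/
noncomputable def uv {n : ℕ} (ε : Edge n) : ℕ := 20 + (Fintype.equivFin (Edge n) ε).val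

lemma uv_inj {n : ℕ} : Function.Injective (uv (n := n)) := by
  intro a b h
  apply (Fintype.equivFin (Edge n)).injective
  apply Fin.ext
  simpa [uv] using h

lemma card_edge (n : ℕ) : Fintype.card (Edge n) = 3 * (2 * n + 3) ^ 3 := by
  simp [Edge]; ring

lemma uv_lt {n : ℕ} (ε : Edge n) : uv ε < 20 + 3 * (2 * n + 3) ^ 3 := by
  have := (Fintype.equivFin (Edge n) ε).isLt
  rw [← card_edge]
  simpa [uv] using this

lemma uv_ge {n : ℕ} (ε : Edge n) : 20 ≤ uv ε := by simp [uv]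

/-- the variable of an edge -/
noncomputable def u {n : ℕ} (d : Fin 3) (i j l : Fin (2 * n + 3)) : Tm := .var (uv (d, i, j, l))

/-- the hypothesis of an edge -/
noncomputable def ehyp {n : ℕ} (ε : Edge n) : Fm :=
  TT (num ε.1.val) (num ε.2.1.val) (num ε.2.2.1.val) (num ε.2.2.2.val) (.var (uv ε))

noncomputable def F0 {n : ℕ} (c : Fin (2 * n + 3) × Fin (2 * n + 3) × Fin (2 * n + 3)) : Tm :=
  rho (num 0) (num c.1.val) (num c.2.1.val) (num c.2.2.val) (u 1 c.1 c.2.1 c.2.2)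
    (u 1 c.1 c.2.1 (c.2.2 + 1)) (u 2 c.1 c.2.1 c.2.2) (u 2 c.1 (c.2.1 + 1) c.2.2)
noncomputable def F1 {n : ℕ} (c : Fin (2 * n + 3) × Fin (2 * n + 3) × Fin (2 * n + 3)) : Tm :=
  rho (num 1) (num c.1.val) (num c.2.1.val) (num c.2.2.val) (u 0 c.1 c.2.1 c.2.2)
    (u 0 c.1 c.2.1 (c.2.2 + 1)) (u 2 c.1 c.2.1 c.2.2) (u 2 (c.1 + 1) c.2.1 c.2.2)
noncomputable def F2 {n : ℕ} (c : Fin (2 * n + 3) × Fin (2 * n + 3) × Fin (2 * n + 3)) : Tm :=
  rho (num 2) (num c.1.val) (num c.2.1.val) (num c.2.2.val) (u 0 c.1 c.2.1 c.2.2)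
    (u 0 c.1 (c.2.1 + 1) c.2.2) (u 1 c.1 c.2.1 c.2.2) (u 1 (c.1 + 1) c.2.1 c.2.2)

/-- the six faces of a cube -/
noncomputable def six {n : ℕ} (c : Fin (2 * n + 3) × Fin (2 * n + 3) × Fin (2 * n + 3)) :
    List Tm :=
  [F0 c, F0 (c.1 + 1, c.2.1, c.2.2), F1 c, F1 (c.1, c.2.1 + 1, c.2.2),
   F2 c, F2 (c.1, c.2.1, c.2.2 + 1)]

/-- bound for the size of a face term -/
def bb (n : ℕ) : ℕ := 12 * (2 * n + 3) ^ 3 + 16 * (2 * n + 3) + 120

lemma u_small {n : ℕ} (d : Fin 3) (i j l : Fin (2 * n + 3)) :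
    High (u d i j l) ∧ tz (u d i j l) ≤ 3 * (2 * n + 3) ^ 3 + 22 := by
  refine ⟨high_var (uv_ge _), ?_⟩
  have := uv_lt (d, i, j, l)
  simp [u]; omega

lemma rho_small {n : ℕ} (d : ℕ) (hd : d ≤ 2) (i j l : Fin (2 * n + 3)) {a b c e : Tm}
    (ha : High a ∧ tz a ≤ 3 * (2 * n + 3) ^ 3 + 22) (hb : High b ∧ tz b ≤ 3 * (2 * n + 3) ^ 3 + 22)
    (hc : High c ∧ tz c ≤ 3 * (2 * n + 3) ^ 3 + 22)
    (he : High e ∧ tz e ≤ 3 * (2 * n + 3) ^ 3 + 22) :
    High (rho (num d) (num i.val) (num j.val) (num l.val) a b c e) ∧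
      tz (rho (num d) (num i.val) (num j.val) (num l.val) a b c e) ≤ bb n := by
  refine ⟨high_rho (high_num _) (high_num _) (high_num _) (high_num _) ha.1 hb.1 hc.1 he.1, ?_⟩
  have := i.isLt
  have := j.isLt
  have := l.isLt
  have := ha.2
  have := hb.2
  have := hc.2
  have := he.2
  simp only [tz_rho, tz_num, bb]
  omega

lemma F0_small {n : ℕ} (c : Fin (2 * n + 3) × Fin (2 * n + 3) × Fin (2 * n + 3)) :
    High (F0 c) ∧ tz (F0 c) ≤ bb n :=
  rho_small 0 (by omega) _ _ _ (u_small ..) (u_small ..) (u_small ..) (u_small ..)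
lemma F1_small {n : ℕ} (c : Fin (2 * n + 3) × Fin (2 * n + 3) × Fin (2 * n + 3)) :
    High (F1 c) ∧ tz (F1 c) ≤ bb n :=
  rho_small 1 (by omega) _ _ _ (u_small ..) (u_small ..) (u_small ..) (u_small ..)
lemma F2_small {n : ℕ} (c : Fin (2 * n + 3) × Fin (2 * n + 3) × Fin (2 * n + 3)) :
    High (F2 c) ∧ tz (F2 c) ≤ bb n :=
  rho_small 2 (by omega) _ _ _ (u_small ..) (u_small ..) (u_small ..) (u_small ..)

lemma succ_cases {n : ℕ} (i : Fin (2 * n + 3)) :
    num (i + 1).val = succ (num i.val) ∨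
      (num (i + 1).val = zero ∧ succ (num i.val) = num (2 * n + 3)) := by
  rw [Fin.val_add_one]
  split_ifs with h
  · right
    refine ⟨rfl, ?_⟩
    rw [h]; rfl
  · left; rfl

namespace Ctx

variable {C : Ctx} {n K : ℕ}

lemma G_num (hB : bb n ≤ C.B) {a : ℕ} (ha : a ≤ 2 * n + 3) : C.G (num a) :=
  ⟨high_num a, by simp only [tz_num]; simp only [bb] at hB; omega⟩

lemma G_fin (hB : bb n ≤ C.B) (i : Fin (2 * n + 3)) : C.G (num i.val) := G_num hB i.isLt.le

lemma G_sfin (hB : bb n ≤ C.B) (i : Fin (2 * n + 3)) : C.G (succ (num i.val)) :=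
  G_num hB (a := i.val + 1) i.isLt

lemma G_u (hB : bb n ≤ C.B) (d : Fin 3) (i j l : Fin (2 * n + 3)) : C.G (u d i j l) :=
  ⟨(u_small d i j l).1, (u_small d i j l).2.trans (by simp only [bb] at hB; omega)⟩

/-- the three periodicity hypotheses are available at cost `K` -/
def Per (C : Ctx) (n K : ℕ) : Prop :=
  C.D K (.eq (num (2 * n + 3)) (succ (add (succ (num n)) (succ (num n))))) ∧
    C.D K (neg (Pe (num n))) ∧ C.D K (Pe (succ (num n)))

lemma Per.use (h : C.Per n K) {a : Fm} (ha : C.D 2 (ph (num n) (num (2 * n + 3)) a)) :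
    C.D (3 * K + 5) a :=
  (h.2.2.mp (h.2.1.mp (h.1.mp ha))).mono (by omega)

lemma D.shT1 (hB : bb n ≤ C.B) (h : C.Per n K) {N : ℕ} {d y z w : Tm} (hd : C.G d) (hy : C.G y)
    (hz : C.G z) (hw : C.G w) (i : Fin (2 * n + 3)) (h0 : C.D N (TT d (num (i + 1).val) y z w)) :
    C.D (N + 3 * K + 6) (TT d (succ (num i.val)) y z w) := by
  rcases succ_cases i with e | ⟨e1, e2⟩
  · rw [← e]; exact h0.mono (by omega)
  · rw [e1] at h0
    rw [e2]
    exact (h0.mp (h.use (D.pt1 (G_num hB (by omega)) (G_num hB le_rfl) hd hy hz hw))).mono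
      (by omega)

lemma D.shT2 (hB : bb n ≤ C.B) (h : C.Per n K) {N : ℕ} {d y z w : Tm} (hd : C.G d) (hy : C.G y)
    (hz : C.G z) (hw : C.G w) (i : Fin (2 * n + 3)) (h0 : C.D N (TT d y (num (i + 1).val) z w)) :
    C.D (N + 3 * K + 6) (TT d y (succ (num i.val)) z w) := by
  rcases succ_cases i with e | ⟨e1, e2⟩
  · rw [← e]; exact h0.mono (by omega)
  · rw [e1] at h0
    rw [e2]
    exact (h0.mp (h.use (D.pt2 (G_num hB (by omega)) (G_num hB le_rfl) hd hy hz hw))).mono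
      (by omega)

lemma D.shT3 (hB : bb n ≤ C.B) (h : C.Per n K) {N : ℕ} {d y z w : Tm} (hd : C.G d) (hy : C.G y)
    (hz : C.G z) (hw : C.G w) (i : Fin (2 * n + 3)) (h0 : C.D N (TT d y z (num (i + 1).val) w)) :
    C.D (N + 3 * K + 6) (TT d y z (succ (num i.val)) w) := by
  rcases succ_cases i with e | ⟨e1, e2⟩
  · rw [← e]; exact h0.mono (by omega)
  · rw [e1] at h0
    rw [e2]
    exact (h0.mp (h.use (D.pt3 (G_num hB (by omega)) (G_num hB le_rfl) hd hy hz hw))).mono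
      (by omega)

lemma D.refl_rho {d i j l a b c e : Tm} (hd : C.G d) (hi : C.G i) (hj : C.G j) (hl : C.G l)
    (ha : C.G a) (hb : C.G b) (hc : C.G c) (he : C.G e) (hB : 11 ≤ C.B) :
    C.D 2 (.eq (rho d i j l a b c e) (rho d i j l a b c e)) :=
  D.refl (by
    have := hd.2; have := hi.2; have := hj.2; have := hl.2; have := ha.2; have := hb.2
    have := hc.2; have := he.2
    simp only [tz_rho]; omega)

lemma D.shR1 (hB : bb n ≤ C.B) (h : C.Per n K) {d y z a b c e : Tm} (hd : C.G d) (hy : C.G y)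
    (hz : C.G z) (ha : C.G a) (hb : C.G b) (hc : C.G c) (he : C.G e) (i : Fin (2 * n + 3)) :
    C.D (3 * K + 5)
      (.eq (rho d (num (i + 1).val) y z a b c e) (rho d (succ (num i.val)) y z a b c e)) := by
  rcases succ_cases i with e | ⟨e1, e2⟩
  · rw [e]
    exact (D.refl_rho hd (G_sfin hB i) hy hz ha hb hc he (by simp only [bb] at hB; omega)).mono
      (by omega)
  · rw [e1, e2]
    exact h.use (D.pr1 (G_num hB (by omega)) (G_num hB le_rfl) hd hy hz ha hb hc he)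

lemma D.shR2 (hB : bb n ≤ C.B) (h : C.Per n K) {d y z a b c e : Tm} (hd : C.G d) (hy : C.G y)
    (hz : C.G z) (ha : C.G a) (hb : C.G b) (hc : C.G c) (he : C.G e) (i : Fin (2 * n + 3)) :
    C.D (3 * K + 5)
      (.eq (rho d y (num (i + 1).val) z a b c e) (rho d y (succ (num i.val)) z a b c e)) := by
  rcases succ_cases i with e | ⟨e1, e2⟩
  · rw [e]
    exact (D.refl_rho hd hy (G_sfin hB i) hz ha hb hc he (by simp only [bb] at hB; omega)).mono
      (by omega)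
  · rw [e1, e2]
    exact h.use (D.pr2 (G_num hB (by omega)) (G_num hB le_rfl) hd hy hz ha hb hc he)

lemma D.shR3 (hB : bb n ≤ C.B) (h : C.Per n K) {d y z a b c e : Tm} (hd : C.G d) (hy : C.G y)
    (hz : C.G z) (ha : C.G a) (hb : C.G b) (hc : C.G c) (he : C.G e) (i : Fin (2 * n + 3)) :
    C.D (3 * K + 5)
      (.eq (rho d y z (num (i + 1).val) a b c e) (rho d y z (succ (num i.val)) a b c e)) := by
  rcases succ_cases i with e | ⟨e1, e2⟩
  · rw [e]
    exact (D.refl_rho hd hy hz (G_sfin hB i) ha hb hc he (by simp only [bb] at hB; omega)).mono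
      (by omega)
  · rw [e1, e2]
    exact h.use (D.pr3 (G_num hB (by omega)) (G_num hB le_rfl) hd hy hz ha hb hc he)

lemma D.cube_eq (hB : bb n ≤ C.B) (h : C.Per n K) (hT : ∀ ε : Edge n, C.D K (ehyp ε))
    (c : Fin (2 * n + 3) × Fin (2 * n + 3) × Fin (2 * n + 3)) (w : Tm) (hw : C.G w) :
    C.D (100 * K + 200) (.eq (List.foldr xor w (six c)) (xor (num 1) w)) := by
  obtain ⟨i, j, l⟩ := c
  have hT' : ∀ (d : Fin 3) (i j l : Fin (2 * n + 3)),
      C.D K (TT (num d.val) (num i.val) (num j.val) (num l.val) (u d i j l)) :=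
    fun d i j l => hT (d, i, j, l)
  have gu := G_u hB
  have gf := G_fin hB
  have gs := G_sfin hB
  have g0 : C.G (num 0) := G_num hB (by omega)
  have g1 : C.G (num 1) := G_num hB (by omega)
  have g2 : C.G (num 2) := G_num hB (by omega)
  have gF0 : ∀ c, C.G (F0 (n := n) c) := fun c => ⟨(F0_small c).1, (F0_small c).2.trans hB⟩
  have gF1 : ∀ c, C.G (F1 (n := n) c) := fun c => ⟨(F1_small c).1, (F1_small c).2.trans hB⟩
  have gF2 : ∀ c, C.G (F2 (n := n) c) := fun c => ⟨(F2_small c).1, (F2_small c).2.trans hB⟩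
  have h0 := D.cube (C := C) (i := num i.val) (j := num j.val) (l := num l.val) (w := w)
    (x := F0 (i + 1, j, l)) (y := F1 (i, j + 1, l)) (z := F2 (i, j, l + 1))
    (x0 := u 0 i j l) (x1 := u 0 i (j + 1) l) (x2 := u 0 i j (l + 1)) (x3 := u 0 i (j + 1) (l + 1))
    (y0 := u 1 i j l) (y1 := u 1 (i + 1) j l) (y2 := u 1 i j (l + 1)) (y3 := u 1 (i + 1) j (l + 1))
    (z0 := u 2 i j l) (z1 := u 2 (i + 1) j l) (z2 := u 2 i (j + 1) l) (z3 := u 2 (i + 1) (j + 1) l)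
    (by simp [gu, gf, hw, gF0, gF1, gF2])
  have a1 := hT' 0 i j l
  have a2 := D.shT2 hB h g0 (gf _) (gf _) (gu ..) j (hT' 0 i (j + 1) l)
  have a3 := D.shT3 hB h g0 (gf _) (gf _) (gu ..) l (hT' 0 i j (l + 1))
  have a4 := D.shT2 hB h g0 (gf _) (gs _) (gu ..) j
    (D.shT3 hB h g0 (gf _) (gf _) (gu ..) l (hT' 0 i (j + 1) (l + 1)))
  have a5 := hT' 1 i j l
  have a6 := D.shT1 hB h g1 (gf _) (gf _) (gu ..) i (hT' 1 (i + 1) j l)
  have a7 := D.shT3 hB h g1 (gf _) (gf _) (gu ..) l (hT' 1 i j (l + 1))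
  have a8 := D.shT1 hB h g1 (gf _) (gs _) (gu ..) i
    (D.shT3 hB h g1 (gf _) (gf _) (gu ..) l (hT' 1 (i + 1) j (l + 1)))
  have a9 := hT' 2 i j l
  have a10 := D.shT1 hB h g2 (gf _) (gf _) (gu ..) i (hT' 2 (i + 1) j l)
  have a11 := D.shT2 hB h g2 (gf _) (gf _) (gu ..) j (hT' 2 i (j + 1) l)
  have a12 := D.shT1 hB h g2 (gs _) (gf _) (gu ..) i
    (D.shT2 hB h g2 (gf _) (gf _) (gu ..) j (hT' 2 (i + 1) (j + 1) l))
  have a13 := D.shR1 hB h g0 (gf j) (gf l) (gu 1 (i + 1) j l) (gu 1 (i + 1) j (l + 1))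
    (gu 2 (i + 1) j l) (gu 2 (i + 1) (j + 1) l) i
  have a14 := D.shR2 hB h g1 (gf i) (gf l) (gu 0 i (j + 1) l) (gu 0 i (j + 1) (l + 1))
    (gu 2 i (j + 1) l) (gu 2 (i + 1) (j + 1) l) j
  have a15 := D.shR3 hB h g2 (gf i) (gf j) (gu 0 i j (l + 1)) (gu 0 i (j + 1) (l + 1))
    (gu 1 i j (l + 1)) (gu 1 (i + 1) j (l + 1)) l
  have r := a15.mp (a14.mp (a13.mp (a12.mp (a11.mp (a10.mp (a9.mp (a8.mp (a7.mp (a6.mp (a5.mp
    (a4.mp (a3.mp (a2.mp (a1.mp h0))))))))))))))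
  exact r.mono (by omega)

end Ctx

lemma six_perm (n : ℕ) :
    ∃ M : List Tm, ((Finset.univ : Finset (Fin (2 * n + 3) × Fin (2 * n + 3) × Fin (2 * n + 3))
      ).toList.flatMap six).Perm (M ++ M) := by
  classical
  set U : Finset (Fin (2 * n + 3) × Fin (2 * n + 3) × Fin (2 * n + 3)) := Finset.univ with hU
  refine ⟨U.toList.flatMap fun c => [F0 c, F1 c, F2 c], ?_⟩
  rw [← Multiset.coe_eq_coe, ← Multiset.coe_add]
  have key : ∀ f : Fin (2 * n + 3) × Fin (2 * n + 3) × Fin (2 * n + 3) → List Tm,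
      ((U.toList.flatMap f : List Tm) : Multiset Tm) = ∑ c, (f c : Multiset Tm) := by
    intro f
    rw [← Multiset.coe_bind, Finset.coe_toList]
    rfl
  rw [key, key]
  have e0 : ∑ c : Fin (2 * n + 3) × Fin (2 * n + 3) × Fin (2 * n + 3),
      ({F0 (c.1 + 1, c.2.1, c.2.2)} : Multiset Tm) = ∑ c, ({F0 c} : Multiset Tm) :=
    Equiv.sum_comp ((Equiv.addRight 1).prodCongr (Equiv.refl _)) fun c => ({F0 c} : Multiset Tm)
  have e1 : ∑ c : Fin (2 * n + 3) × Fin (2 * n + 3) × Fin (2 * n + 3),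
      ({F1 (c.1, c.2.1 + 1, c.2.2)} : Multiset Tm) = ∑ c, ({F1 c} : Multiset Tm) :=
    Equiv.sum_comp ((Equiv.refl _).prodCongr ((Equiv.addRight 1).prodCongr (Equiv.refl _)))
      fun c => ({F1 c} : Multiset Tm)
  have e2 : ∑ c : Fin (2 * n + 3) × Fin (2 * n + 3) × Fin (2 * n + 3),
      ({F2 (c.1, c.2.1, c.2.2 + 1)} : Multiset Tm) = ∑ c, ({F2 c} : Multiset Tm) :=
    Equiv.sum_comp ((Equiv.refl _).prodCongr ((Equiv.refl _).prodCongr (Equiv.addRight 1)))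
      fun c => ({F2 c} : Multiset Tm)
  have s6 : ∀ c : Fin (2 * n + 3) × Fin (2 * n + 3) × Fin (2 * n + 3),
      (six c : Multiset Tm) = {F0 c} + {F0 (c.1 + 1, c.2.1, c.2.2)} + {F1 c} +
        {F1 (c.1, c.2.1 + 1, c.2.2)} + {F2 c} + {F2 (c.1, c.2.1, c.2.2 + 1)} := fun c => rfl
  have s3 : ∀ c : Fin (2 * n + 3) × Fin (2 * n + 3) × Fin (2 * n + 3),
      (([F0 c, F1 c, F2 c] : List Tm) : Multiset Tm) = {F0 c} + {F1 c} + {F2 c} := fun c => rfl
  simp only [s6, s3, Finset.sum_add_distrib, e0, e1, e2]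
  abel

/-- number of big steps for the refutation under the hypotheses -/
def steps1 (n K : ℕ) : ℕ :=
  (6 * (2 * n + 3) ^ 3 + 1) * (100 * K + 200 + 10) +
    2 * ((6 * (2 * n + 3) ^ 3 + 1) * (12 * (6 * (2 * n + 3) ^ 3 + 1) + 24) + 8) + 40

/-- bound for the size of all terms -/
def BB (n : ℕ) : ℕ := (6 * (2 * n + 3) ^ 3 + 1 + 1) * (bb n + 7) + 3

lemma bb_le_BB (n : ℕ) : bb n ≤ BB n := by
  have : 1 * (bb n + 7) ≤ (6 * (2 * n + 3) ^ 3 + 1 + 1) * (bb n + 7) :=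
    Nat.mul_le_mul_right _ (by omega)
  simp only [BB]; omega

theorem Ctx.D.refute {C : Ctx} {n K : ℕ} (hB : BB n ≤ C.B) (h : C.Per n K)
    (hT : ∀ ε : Edge n, C.D K (ehyp ε)) : C.D (steps1 n K) .bot := by
  obtain ⟨M, hM⟩ := six_perm n
  have hlen : (Finset.univ : Finset (Fin (2 * n + 3) × Fin (2 * n + 3) × Fin (2 * n + 3))
      ).toList.length = (2 * n + 3) ^ 3 := by simp; ring
  refine Ctx.D.parity (b := bb n) (r := 6 * (2 * n + 3) ^ 3 + 1) hB (by simp only [bb]; omega)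
    six (100 * K + 200) (Ctx.D.cube_eq ((bb_le_BB n).trans hB) h hT) _ (by rw [hlen]; omega)
    ⟨?_, ?_⟩ M hM (4 * n ^ 3 + 18 * n ^ 2 + 27 * n + 14) (by rw [hlen]; ring)
  · intro t ht
    obtain ⟨c, -, hc⟩ := List.mem_flatMap.mp ht
    simp only [six, List.mem_cons, List.not_mem_nil, or_false] at hc
    rcases hc with rfl | rfl | rfl | rfl | rfl | rfl
    exacts [F0_small _, F0_small _, F1_small _, F1_small _, F2_small _, F2_small _]
  · rw [List.length_flatMap]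
    simp only [six, List.length_cons, List.length_nil, List.map_const', List.sum_replicate, hlen,
      smul_eq_mul]
    omega

end Pool.Agent.MP_8ec908_lc.H78
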