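import Pool.Agent.MP_8ec908_lc.H78.Rules

namespace Pool.Agent.MP_8ec908_lc.H78

open Pool.Agent.MP_8ec908_lc.Defs

/-- xor-sum of a list of terms -/
def sg (L : List Tm) : Tm := L.foldr xor zero

@[simp] lemma sg_nil : sg [] = zero := rfl
@[simp] lemma sg_cons (a : Tm) (L : List Tm) : sg (a :: L) = xor a (sg L) := rfl

/-- small lists of small terms -/
def Sm (b r : ℕ) (L : List Tm) : Prop := (∀ t ∈ L, High t ∧ tz t ≤ b) ∧ L.length ≤ r

lemma Sm.tail {b r : ℕ} {a : Tm} {L : List Tm} (h : Sm b r (a :: L)) : Sm b r L :=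
  ⟨fun t ht => h.1 t (List.mem_cons_of_mem _ ht), by have := h.2; simp at this; omega⟩

lemma Sm.perm {b r : ℕ} {L L' : List Tm} (h : Sm b r L) (hp : L.Perm L') : Sm b r L' :=
  ⟨fun t ht => h.1 t (hp.mem_iff.mpr ht), by rw [← hp.length_eq]; exact h.2⟩

lemma high_sg {L : List Tm} (h : ∀ t ∈ L, High t) : High (sg L) := by
  induction L with
  | nil => exact high_zero
  | cons a L ih =>
    exact (h a (by simp)).xor (ih fun t ht => h t (List.mem_cons_of_mem _ ht))

lemma tz_sg {b : ℕ} {L : List Tm} (h : ∀ t ∈ L, tz t ≤ b) : tz (sg L) ≤ L.length * (b + 7) + 3 := by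
  induction L with
  | nil => simp
  | cons a L ih =>
    have h1 := h a (by simp)
    have h2 := ih fun t ht => h t (List.mem_cons_of_mem _ ht)
    simp only [sg_cons, tz_xor, List.length_cons]
    nlinarith

namespace Ctx

variable {C : Ctx} {b r : ℕ}

lemma G_sg (hb : (r + 1) * (b + 7) + 3 ≤ C.B) {L : List Tm} (h : Sm b r L) : C.G (sg L) := by
  refine ⟨high_sg fun t ht => (h.1 t ht).1, ?_⟩
  have h1 := tz_sg fun t ht => (h.1 t ht).2
  have h2 : L.length * (b + 7) ≤ (r + 1) * (b + 7) :=
    Nat.mul_le_mul_right _ (by have := h.2; omega)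
  omega

lemma G_zero_sg (hb : (r + 1) * (b + 7) + 3 ≤ C.B) (hb3 : 3 ≤ b) {L : List Tm} (h : Sm b r L) :
    C.G (xor zero (sg L)) := by
  refine ⟨high_zero.xor (high_sg fun t ht => (h.1 t ht).1), ?_⟩
  have h1 := tz_sg fun t ht => (h.1 t ht).2
  have h2 : L.length * (b + 7) ≤ r * (b + 7) := Nat.mul_le_mul_right _ h.2
  simp only [tz_xor, tz_zero]
  nlinarith

lemma G_mem (hb : (r + 1) * (b + 7) + 3 ≤ C.B) {L : List Tm} (h : Sm b r L) {t : Tm}
    (ht : t ∈ L) : C.G t :=
  ⟨(h.1 t ht).1, by have := (h.1 t ht).2; nlinarith⟩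

lemma D.zero_sg (hb : (r + 1) * (b + 7) + 3 ≤ C.B) {L : List Tm} (h : Sm b r L) :
    C.D 2 (.eq (xor zero (sg L)) (sg L)) := by
  cases L with
  | nil => exact D.x4
  | cons a L => exact D.x3 (G_mem hb h (by simp)) (G_sg hb h.tail)

lemma D.front (hb : (r + 1) * (b + 7) + 3 ≤ C.B) (x : Tm) (L1 L2 : List Tm)
    (h : Sm b r (L1 ++ x :: L2)) :
    C.D (12 * L1.length + 2) (.eq (sg (L1 ++ x :: L2)) (xor x (sg (L1 ++ L2)))) := by
  induction L1 with
  | nil => exact D.refl (by have := (G_sg hb h).2; simp at this ⊢; omega)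
  | cons a L1 ih =>
    have h' : Sm b r (L1 ++ x :: L2) := h.tail
    have p1 : Sm b r (x :: (L1 ++ L2)) := h'.perm List.perm_middle
    have p2 : Sm b r (a :: x :: (L1 ++ L2)) := h.perm (List.Perm.cons a List.perm_middle)
    have p3 : Sm b r (x :: a :: (L1 ++ L2)) := p2.perm (List.Perm.swap _ _ _)
    have ga : C.G a := G_mem hb h (by simp)
    have gx : C.G x := G_mem hb h (by simp)
    have h1 := D.congr_xor ga (G_sg hb h') (G_sg hb p1) (ih h')
    have h2 := D.x1 ga gx (G_sg hb p1.tail)
    have h3 := D.trans (G_sg hb h) (G_sg hb p2) (G_sg hb p3) h1 h2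
    exact h3.mono (by simp; omega)

lemma D.perm (hb : (r + 1) * (b + 7) + 3 ≤ C.B) (L' : List Tm) :
    ∀ L : List Tm, L.Perm L' → Sm b r L →
      C.D (L'.length * (12 * r + 12) + 2) (.eq (sg L) (sg L')) := by
  induction L' with
  | nil =>
    intro L hp h
    rw [hp.eq_nil]
    exact (D.refl (t := zero) (by have := C.hB; simp; omega)).mono (by simp)
  | cons x L' ih =>
    intro L hp h
    obtain ⟨L1, L2, rfl⟩ := List.append_of_mem (hp.mem_iff.mpr (List.mem_cons_self))
    have p0 : (L1 ++ L2).Perm L' := (List.perm_middle.symm.trans hp).cons_inv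
    have p1 : Sm b r (x :: (L1 ++ L2)) := h.perm List.perm_middle
    have p2 : Sm b r (x :: L') := h.perm hp
    have gx : C.G x := G_mem hb p2 (by simp)
    have h1 := D.front hb x L1 L2 h
    have h2 := D.congr_xor gx (G_sg hb p1.tail) (G_sg hb p2.tail) (ih _ p0 p1.tail)
    have h3 := D.trans (G_sg hb h) (G_sg hb p1) (G_sg hb p2) h1 h2
    refine h3.mono ?_
    have : L1.length ≤ r := by have := h.2; simp at this; omega
    simp only [List.length_cons]
    nlinarith

/-- every element twice in a row -/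
def dup : List Tm → List Tm
  | [] => []
  | x :: M => x :: x :: dup M

lemma dup_perm (M : List Tm) : (M ++ M).Perm (dup M) := by
  induction M with
  | nil => simp [dup]
  | cons x M ih =>
    simp only [dup, List.cons_append]
    exact List.Perm.cons x (List.perm_middle.trans (List.Perm.cons x ih))

lemma D.dup (hb : (r + 1) * (b + 7) + 3 ≤ C.B) (hb3 : 3 ≤ b) (M : List Tm)
    (h : Sm b r (dup M)) : C.D (12 * M.length + 2) (.eq (sg (dup M)) zero) := by
  induction M with
  | nil => exact D.refl (by have := C.hB; simp [Ctx.dup]; omega)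
  | cons x M ih =>
    have h' : Sm b r (Ctx.dup M) := h.tail.tail
    have gx : C.G x := G_mem hb h (by simp [Ctx.dup])
    have gz : C.G zero := ⟨high_zero, by simp; nlinarith⟩
    have h1 := D.x2 gx (G_sg hb h')
    have h2 := D.zero_sg hb h'
    have h3 := D.trans (G_sg hb h) (G_zero_sg hb hb3 h') (G_sg hb h') h1 h2
    have h4 := D.trans (G_sg hb h) (G_sg hb h') gz h3 (ih h')
    exact h4.mono (by simp; omega)

lemma D.even (hb : (r + 1) * (b + 7) + 3 ≤ C.B) (hb3 : 3 ≤ b) (L M : List Tm)
    (hp : L.Perm (M ++ M)) (h : Sm b r L) :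
    C.D (r * (12 * r + 24) + 8) (.eq (sg L) zero) := by
  have hp' : L.Perm (Ctx.dup M) := hp.trans (dup_perm M)
  have h' := h.perm hp'
  have gz : C.G zero := ⟨high_zero, by simp; nlinarith⟩
  have h1 := D.perm hb _ L hp' h
  have h2 := D.dup hb hb3 M h'
  refine (D.trans (G_sg hb h) (G_sg hb h') gz h1 h2).mono ?_
  have e1 : (Ctx.dup M).length ≤ r := h'.2
  have e2 : M.length ≤ r := by
    have := (h.perm hp).2
    simp at this; omega
  nlinarith

/-- If each block `six c` sums to one, the total number of blocks is odd and every term occurs an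
even number of times, we get a contradiction. -/
lemma D.parity {ι : Type} (hb : (r + 1) * (b + 7) + 3 ≤ C.B) (hb3 : 7 ≤ b)
    (six : ι → List Tm) (K : ℕ)
    (hc : ∀ c w, C.G w → C.D K (.eq (List.foldr xor w (six c)) (xor (num 1) w)))
    (cs : List ι) (hlen : cs.length + 1 ≤ r) (hsm : Sm b r (cs.flatMap six))
    (M : List Tm) (hp : (cs.flatMap six).Perm (M ++ M)) (h : ℕ) (hodd : cs.length + 1 = h + h) :
    C.D (r * (K + 10) + 2 * (r * (12 * r + 24) + 8) + 40) .bot := by
  have one : High (num 1) ∧ tz (num 1) ≤ b := ⟨high_num 1, by simp; omega⟩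
  have g1 : C.G (num 1) := ⟨high_num 1, by simp; nlinarith⟩
  have gz : C.G zero := ⟨high_zero, by simp; nlinarith⟩
  have rep : ∀ n, n ≤ r → Sm b r (List.replicate n (num 1)) := by
    intro n hn
    exact ⟨fun t ht => by rw [List.eq_of_mem_replicate ht]; exact one, by simpa using hn⟩
  have key : ∀ cs : List ι, cs.length + 1 ≤ r → Sm b r (cs.flatMap six) →
      C.D (cs.length * (K + 10) + 2)
        (.eq (sg (cs.flatMap six)) (sg (List.replicate cs.length (num 1)))) := by
    intro cs
    induction cs with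
    | nil => intro _ _; exact (D.refl (t := zero) (by have := C.hB; simp; omega)).mono (by simp)
    | cons c cs ih =>
      intro hl hs
      simp only [List.length_cons] at hl
      have hs' : Sm b r (cs.flatMap six) :=
        ⟨fun t ht => hs.1 t (by simp only [List.flatMap_cons]; exact List.mem_append_right _ ht),
          by have := hs.2; simp only [List.flatMap_cons, List.length_append] at this; omega⟩
      have h1 := hc c _ (G_sg hb hs')
      have h2 := D.congr_xor g1 (G_sg hb hs') (G_sg hb (rep _ (by omega))) (ih (by omega) hs')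
      have e : List.foldr xor (sg (cs.flatMap six)) (six c) = sg ((c :: cs).flatMap six) := by
        simp [sg, List.flatMap_cons, List.foldr_append]
      rw [e] at h1
      have g2 : C.G (xor (num 1) (sg (cs.flatMap six))) := by
        refine ⟨g1.1.xor (G_sg hb hs').1, ?_⟩
        have h1 := tz_sg fun t ht => (hs'.1 t ht).2
        have h2 : (cs.flatMap six).length * (b + 7) ≤ r * (b + 7) := Nat.mul_le_mul_right _ hs'.2
        simp only [tz_xor, tz_num]
        nlinarith
      have h3 := D.trans (G_sg hb hs) g2 (G_sg hb (rep (cs.length + 1) (by omega))) h1 h2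
      refine h3.mono ?_
      simp only [List.length_cons]
      nlinarith
  have k1 := key cs hlen hsm
  have k2 := D.even hb (by omega) _ M hp hsm
  have k3 := D.even hb (by omega) (List.replicate (cs.length + 1) (num 1))
    (List.replicate h (num 1)) (by rw [hodd, List.replicate_add]) (rep _ hlen)
  have gs := G_sg hb hsm
  have gr := G_sg hb (rep cs.length (by omega))
  have k4 := D.trans gz gs gr (D.symm gs gz k2) k1
  have k5 := D.congr_xor g1 gz gr k4
  have k6 := D.trans (C := C) ⟨g1.1.xor gz.1, by simp; nlinarith⟩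
    (G_sg hb (rep (cs.length + 1) hlen)) gz k5 k3
  refine (k6.mp D.x5).mono ?_
  have : cs.length * (K + 10) ≤ r * (K + 10) := Nat.mul_le_mul_right _ (by omega)
  omega

end Ctx

end Pool.Agent.MP_8ec908_lc.H78
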