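import Pool.Agent.MP_8ec908_lc.Defs

/-! The fixed part `Ax0` of the theory (list of closed axioms; `a0` is their conjunction). -/

namespace Pool.Agent.MP_8ec908_lc.H78

open Pool.Agent.MP_8ec908_lc.Defs

/-- variable -/
abbrev vr (i : ℕ) : Tm := .var i
/-- the binary function symbol xor -/
def xor (s t : Tm) : Tm := .app 2 2 ![s, t]
/-- the face bit: normal `d`, base point `(i,j,l)`, elements on the four edges -/
def rho (d i j l a b c e : Tm) : Tm := .app 0 8 ![d, i, j, l, a, b, c, e]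
/-- guard -/
def NatR (t : Tm) : Fm := .rel 0 1 ![t]
/-- period predicate -/
def Pe (t : Tm) : Fm := .rel 1 1 ![t]
/-- `u` lies over the edge in direction `d` starting at `(i,j,l)` -/
def TT (d i j l u : Tm) : Fm := .rel 0 5 ![d, i, j, l, u]
/-- universal closure over a list of variables (first variable outermost) -/
def alls (xs : List ℕ) (a : Fm) : Fm := xs.foldr Fm.all a
/-- `h₁ → h₂ → … → a` -/
def imps (hs : List Fm) (a : Fm) : Fm := hs.foldr Fm.imp a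

def axN0 : Fm := NatR zero
def axNS : Fm := alls [0] (.imp (NatR (vr 0)) (NatR (succ (vr 0))))
def axEX : Fm := alls [0, 1, 2, 3]
  (imps [NatR (vr 0), NatR (vr 1), NatR (vr 2), NatR (vr 3)]
    (ex 4 (TT (vr 0) (vr 1) (vr 2) (vr 3) (vr 4))))
def axX1 : Fm := alls [0, 1, 2]
  (.eq (xor (vr 0) (xor (vr 1) (vr 2))) (xor (vr 1) (xor (vr 0) (vr 2))))
def axX2 : Fm := alls [0, 1] (.eq (xor (vr 0) (xor (vr 0) (vr 1))) (xor zero (vr 1)))
def axX3 : Fm := alls [0, 1] (.eq (xor zero (xor (vr 0) (vr 1))) (xor (vr 0) (vr 1)))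
def axX4 : Fm := .eq (xor zero zero) zero
def axX5 : Fm := neg (.eq (xor (num 1) zero) zero)

/-- The matrix of the cube axiom.  Variables: `i,j,l = 0,1,2`; `w = 3`; `x',y',z' = 4,5,6`;
x-edges at `(i,j,l),(i,Sj,l),(i,j,Sl),(i,Sj,Sl)` = `7,8,9,10`;
y-edges at `(i,j,l),(Si,j,l),(i,j,Sl),(Si,j,Sl)` = `11,12,13,14`;
z-edges at `(i,j,l),(Si,j,l),(i,Sj,l),(Si,Sj,l)` = `15,16,17,18`.
The face with normal 0 at `(i,j,l)` takes the edges `y(i,j,l), y(i,j,l+1), z(i,j,l), z(i,j+1,l)`;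
normal 1 takes `x(i,j,l), x(i,j,l+1), z(i,j,l), z(i+1,j,l)`;
normal 2 takes `x(i,j,l), x(i,j+1,l), y(i,j,l), y(i+1,j,l)`. -/
def cubeM : Fm :=
  imps [ TT (num 0) (vr 0) (vr 1) (vr 2) (vr 7),
         TT (num 0) (vr 0) (succ (vr 1)) (vr 2) (vr 8),
         TT (num 0) (vr 0) (vr 1) (succ (vr 2)) (vr 9),
         TT (num 0) (vr 0) (succ (vr 1)) (succ (vr 2)) (vr 10),
         TT (num 1) (vr 0) (vr 1) (vr 2) (vr 11),
         TT (num 1) (succ (vr 0)) (vr 1) (vr 2) (vr 12),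
         TT (num 1) (vr 0) (vr 1) (succ (vr 2)) (vr 13),
         TT (num 1) (succ (vr 0)) (vr 1) (succ (vr 2)) (vr 14),
         TT (num 2) (vr 0) (vr 1) (vr 2) (vr 15),
         TT (num 2) (succ (vr 0)) (vr 1) (vr 2) (vr 16),
         TT (num 2) (vr 0) (succ (vr 1)) (vr 2) (vr 17),
         TT (num 2) (succ (vr 0)) (succ (vr 1)) (vr 2) (vr 18),
         .eq (vr 4) (rho (num 0) (succ (vr 0)) (vr 1) (vr 2) (vr 12) (vr 14) (vr 16) (vr 18)),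
         .eq (vr 5) (rho (num 1) (vr 0) (succ (vr 1)) (vr 2) (vr 8) (vr 10) (vr 17) (vr 18)),
         .eq (vr 6) (rho (num 2) (vr 0) (vr 1) (succ (vr 2)) (vr 9) (vr 10) (vr 13) (vr 14)) ]
    (.eq (xor (rho (num 0) (vr 0) (vr 1) (vr 2) (vr 11) (vr 13) (vr 15) (vr 17))
          (xor (vr 4)
          (xor (rho (num 1) (vr 0) (vr 1) (vr 2) (vr 7) (vr 9) (vr 15) (vr 16))
          (xor (vr 5)
          (xor (rho (num 2) (vr 0) (vr 1) (vr 2) (vr 7) (vr 8) (vr 11) (vr 12))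
          (xor (vr 6) (vr 3)))))))
      (xor (num 1) (vr 3)))

def axCube : Fm := alls [0, 1, 2, 3, 4, 5, 6, 7, 8, 9, 10, 11, 12, 13, 14, 15, 16, 17, 18] cubeM

def axP0 : Fm := neg (Pe zero)

/-- `y = S(Sx+Sx) → ¬ Pe x → Pe (S x) → a` with `x = v₀`, `y = v₁` -/
def perHyp (a : Fm) : Fm :=
  imps [.eq (vr 1) (succ (add (succ (vr 0)) (succ (vr 0)))), neg (Pe (vr 0)), Pe (succ (vr 0))] a

def axPT1 : Fm := alls [0, 1, 2, 3, 4, 5] (perHyp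
  (.imp (TT (vr 2) zero (vr 3) (vr 4) (vr 5)) (TT (vr 2) (vr 1) (vr 3) (vr 4) (vr 5))))
def axPT2 : Fm := alls [0, 1, 2, 3, 4, 5] (perHyp
  (.imp (TT (vr 2) (vr 3) zero (vr 4) (vr 5)) (TT (vr 2) (vr 3) (vr 1) (vr 4) (vr 5))))
def axPT3 : Fm := alls [0, 1, 2, 3, 4, 5] (perHyp
  (.imp (TT (vr 2) (vr 3) (vr 4) zero (vr 5)) (TT (vr 2) (vr 3) (vr 4) (vr 1) (vr 5))))
def axPR1 : Fm := alls [0, 1, 2, 3, 4, 5, 6, 7, 8] (perHyp
  (.eq (rho (vr 2) zero (vr 3) (vr 4) (vr 5) (vr 6) (vr 7) (vr 8))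
       (rho (vr 2) (vr 1) (vr 3) (vr 4) (vr 5) (vr 6) (vr 7) (vr 8))))
def axPR2 : Fm := alls [0, 1, 2, 3, 4, 5, 6, 7, 8] (perHyp
  (.eq (rho (vr 2) (vr 3) zero (vr 4) (vr 5) (vr 6) (vr 7) (vr 8))
       (rho (vr 2) (vr 3) (vr 1) (vr 4) (vr 5) (vr 6) (vr 7) (vr 8))))
def axPR3 : Fm := alls [0, 1, 2, 3, 4, 5, 6, 7, 8] (perHyp
  (.eq (rho (vr 2) (vr 3) (vr 4) zero (vr 5) (vr 6) (vr 7) (vr 8))
       (rho (vr 2) (vr 3) (vr 4) (vr 1) (vr 5) (vr 6) (vr 7) (vr 8))))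

/-- The fixed axioms. -/
def Ax0 : List Fm :=
  [axN0, axNS, axEX, axX1, axX2, axX3, axX4, axX5, axCube, axP0,
   axPT1, axPT2, axPT3, axPR1, axPR2, axPR3]

/-- The statement proved by module M6. -/
def M6Statement : Prop :=
  ∃ k : ℕ, ∃ P : Polynomial ℕ, ∀ n : ℕ,
    ∃ p, IsProof (Q ++ Ax0) p ∧ neg (Pe (num n)) ∈ p ∧ len p ≤ P.eval n ∧ ∀ b ∈ p, b.rank ≤ k

end Pool.Agent.MP_8ec908_lc.H78
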